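import Mathlib

/-!
# Polarised Hodge structures of weight zero, Hodge classes and Tate classes: definitions
-/

set_option autoImplicit false

namespace Pool.Agent.W5h23.Wt

open Module TensorProduct

section hodge

variable {W : Type} [AddCommGroup W] [Module ℚ W]

variable (W) in
/-- Complex conjugation on `ℂ ⊗ W`. -/
noncomputable def cc : ℂ ⊗[ℚ] W →ₗ[ℚ] ℂ ⊗[ℚ] W :=
  (Complex.conjAe.toLinearMap.restrictScalars ℚ).rTensor W

/-- `H` is a Hodge structure of weight zero on the rational vector space `W` (`H p` is the part of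
type `(p, -p)` of `ℂ ⊗ W`), polarised by the symmetric bilinear form `q₀`. -/
structure IsPolarisedHodge (H : ℤ → Submodule ℂ (ℂ ⊗[ℚ] W)) (q₀ : W →ₗ[ℚ] W →ₗ[ℚ] ℚ) :
    Prop where
  internal : DirectSum.IsInternal H
  conj : ∀ p, ∀ x ∈ H p, cc W x ∈ H (-p)
  symm : ∀ x y, q₀ x y = q₀ y x
  nondeg : ∀ u, (∀ v, q₀ v u = 0) → u = 0
  orth : ∀ p p', p + p' ≠ 0 → ∀ x ∈ H p, ∀ y ∈ H p', LinearMap.BilinForm.baseChange ℂ q₀ x y = 0
  pos : ∀ p, ∀ x ∈ H p, x ≠ 0 →
    0 < (-1 : ℝ) ^ p * (LinearMap.BilinForm.baseChange ℂ q₀ x (cc W x)).re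

/-- The multilinear form `ψ` on `W` is a Hodge class in a tensor power of the dual space of `W`: its
complexification is of type `(0, 0)`, i.e. it vanishes on the vectors of types `(p l, - p l)` if the
sum of the `p l` is not zero. -/
def IsHodgeForm (H : ℤ → Submodule ℂ (ℂ ⊗[ℚ] W)) {κ : Type} [Fintype κ]
    (ψ : MultilinearMap ℚ (fun _ : κ => W) ℚ) : Prop :=
  ∃ Ψ : MultilinearMap ℂ (fun _ : κ => ℂ ⊗[ℚ] W) ℂ,
    (∀ w : κ → W, Ψ (fun l => (1 : ℂ) ⊗ₜ[ℚ] w l) = ((ψ w : ℚ) : ℂ)) ∧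
      ∀ (p : κ → ℤ) (x : κ → ℂ ⊗[ℚ] W), (∀ l, x l ∈ H (p l)) → ∑ l, p l ≠ 0 → Ψ x = 0

/-- The `k`-linear combinations of Hodge classes in the space of multilinear forms on `k ⊗ W` in
variables indexed by `κ`. -/
def HodgeForms (k : Type) [Field k] [CharZero k] (H : ℤ → Submodule ℂ (ℂ ⊗[ℚ] W)) (κ : Type)
    [Fintype κ] : Submodule k (MultilinearMap k (fun _ : κ => k ⊗[ℚ] W) k) :=
  Submodule.span k {φ | ∃ ψ : MultilinearMap ℚ (fun _ : κ => W) ℚ, IsHodgeForm H ψ ∧
    ∀ w : κ → W, φ (fun l => (1 : k) ⊗ₜ[ℚ] w l) = ((ψ w : ℚ) : k)}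

/-- `P` is an endomorphism of the Hodge structure. -/
def IsHodgeEndo (H : ℤ → Submodule ℂ (ℂ ⊗[ℚ] W)) (P : W →ₗ[ℚ] W) : Prop :=
  ∀ p, ∀ x ∈ H p, P.baseChange ℂ x ∈ H p

/-- The algebra of the `k`-linear combinations of the endomorphisms of the Hodge structure. -/
def HodgeEndos (k : Type) [Field k] [CharZero k] (H : ℤ → Submodule ℂ (ℂ ⊗[ℚ] W)) :
    Submodule k (End k (k ⊗[ℚ] W)) :=
  Submodule.span k {P' | ∃ P : W →ₗ[ℚ] W, IsHodgeEndo H P ∧ P' = P.baseChange k}

/-- The adjoint involution of the polarisation is trivial on the centre of the algebra of endomorphisms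
of the Hodge structure. -/
def AdjointTrivialOnCentre (H : ℤ → Submodule ℂ (ℂ ⊗[ℚ] W)) (q₀ : W →ₗ[ℚ] W →ₗ[ℚ] ℚ) : Prop :=
  ∀ P : W →ₗ[ℚ] W, IsHodgeEndo H P → (∀ Q : W →ₗ[ℚ] W, IsHodgeEndo H Q → ∀ w, P (Q w) = Q (P w)) →
    ∀ x y, q₀ (P x) y = q₀ x (P y)

end hodge

section tate

variable {k V Γ : Type} [Field k] [AddCommGroup V] [Module k V] [Group Γ]

/-- The multilinear form `φ` is a Tate class: it is fixed by a subgroup of finite index. -/
def IsTateForm (ρ : Representation k Γ V) {κ : Type} (φ : MultilinearMap k (fun _ : κ => V) k) :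
    Prop :=
  ∃ Δ : Subgroup Γ, Δ.FiniteIndex ∧ ∀ s ∈ Δ, ∀ v, φ (fun l => ρ s (v l)) = φ v

/-- The set of the endomorphisms of `V` which commute with a subgroup of finite index (the Tate classes
in the space of endomorphisms). -/
def TateEndos (ρ : Representation k Γ V) : Set (End k V) :=
  {Z | ∃ Δ : Subgroup Γ, Δ.FiniteIndex ∧ ∀ s ∈ Δ, ρ s * Z = Z * ρ s}

end tate

section forms

variable {k V : Type} [Field k] [AddCommGroup V] [Module k V]

/-- The elements of the centre of the algebra `A` of endomorphisms which are skew for `q`. -/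
def SkewCentre (q : V →ₗ[k] V →ₗ[k] k) (A : Set (End k V)) : Set (End k V) :=
  {Z | Z ∈ A ∧ (∀ Q ∈ A, Z * Q = Q * Z) ∧ ∀ x y, q (Z x) y + q x (Z y) = 0}

/-- The multilinear form `φ` is killed by the endomorphisms in `S`, acting as elements of the Lie
algebra. -/
def KilledBy {κ : Type} [Fintype κ] [DecidableEq κ] (S : Set (End k V))
    (φ : MultilinearMap k (fun _ : κ => V) k) : Prop :=
  ∀ Z ∈ S, ∀ v, ∑ l, φ (Function.update v l (Z (v l))) = 0

/-- `(a, b, c, d)` as a family of vectors indexed by two pairs. -/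
def four (a b c d : V) : Fin 2 × Fin 2 → V := fun p => ![![a, b], ![c, d]] p.1 p.2

/-- The form in four variables is a symmetric form on the second exterior power of `V`. -/
def IsSymAlt (φ : MultilinearMap k (fun _ : Fin 2 × Fin 2 => V) k) : Prop :=
  ∀ a b c d, φ (four a b c d) = -φ (four b a c d) ∧ φ (four a b c d) = φ (four c d a b)

/-- `φ` is the class of the Lie algebra `L`: `φ (a, b, c, d) = q (Y c) d`, where `Y` is the orthogonal
projection to `L`, for the trace form, of the endomorphism `x ↦ q b x • a`. -/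
def IsLieClass (q : V →ₗ[k] V →ₗ[k] k) (L : Submodule k (End k V))
    (φ : MultilinearMap k (fun _ : Fin 2 × Fin 2 => V) k) : Prop :=
  ∀ a b c d, ∃ Y ∈ L, (∀ Y' ∈ L, LinearMap.trace k V (Y' * Y) = q b (Y' a)) ∧
    φ (four a b c d) = q (Y c) d

variable (k V) in
/-- A set of multilinear forms on `V` in variables indexed by `κ`, for each `κ`. -/
def FormSets : Type 1 := ∀ (κ : Type) [Fintype κ], Set (MultilinearMap k (fun _ : κ => V) k)

/-- All forms in `F` killed by `S` are in `G`. -/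
def AllIn (F G : FormSets k V) (S : Set (End k V)) : Prop :=
  ∀ (κ : Type) [Fintype κ] [DecidableEq κ], ∀ φ ∈ F κ, KilledBy S φ → φ ∈ G κ

/-- All forms in two variables in `F` are in `G`. -/
def TwoIn (F G : FormSets k V) : Prop := ∀ φ ∈ F (Fin 2), φ ∈ G (Fin 2)

/-- All forms in `F` which are symmetric forms on the second exterior power and are killed by `S` are
in `G`. -/
def FourIn (F G : FormSets k V) (S : Set (End k V)) : Prop :=
  ∀ φ ∈ F (Fin 2 × Fin 2), IsSymAlt φ → KilledBy S φ → φ ∈ G (Fin 2 × Fin 2)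

/-- The Lie algebra of `F`: the space of the endomorphisms which kill all forms in `F`. -/
def LieOf (F : FormSets k V) : Submodule k (End k V) :=
  Submodule.span k {X | ∀ (κ : Type) [Fintype κ] [DecidableEq κ], ∀ φ ∈ F κ, KilledBy {X} φ}

/-- The Lie algebras of `F` and of `G` have the same elements in `S`. -/
def SameIn (F G : FormSets k V) (S : Set (End k V)) : Prop :=
  ∀ Z ∈ S, Z ∈ LieOf F ↔ Z ∈ LieOf G

/-- The Tate classes. -/
def TateSets {Γ : Type} [Group Γ] (ρ : Representation k Γ V) : FormSets k V :=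
  fun _ _ => {φ | IsTateForm ρ φ}

end forms

/-- The linear combinations of Hodge classes. -/
def HodgeSets (k : Type) [Field k] [CharZero k] {W : Type} [AddCommGroup W] [Module ℚ W]
    (H : ℤ → Submodule ℂ (ℂ ⊗[ℚ] W)) : FormSets k (k ⊗[ℚ] W) :=
  fun κ _ => HodgeForms k H κ

end Pool.Agent.W5h23.Wt
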