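import Mathlib
import Pool.Agent.W5h23.Four.TateKilled
import Pool.Agent.W5h23.Wt.Defs

/-!
# Polarised Hodge structures of weight zero, Hodge forms and Tate forms
-/

set_option autoImplicit false

namespace Pool.Agent.W5h23.Wt

open Module TensorProduct Pool.Agent.H204R3.GP Pool.Agent.H204R3.SP Pool.Agent.TH118.MT
  Pool.Agent.Y114.RM Pool.Agent.H50.FT Pool.Agent.R913.Adj Pool.Agent Pool.Agent.W5h23.Four


section der

variable {k V κ κ' : Type} [Field k] [AddCommGroup V] [Module k V] [Fintype κ] [DecidableEq κ]
  [Fintype κ'] [DecidableEq κ']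

theorem der_dom (X : End k V) (φ : MultilinearMap k (fun _ : κ => V) k) (e : κ ≃ κ') :
    der X (MultilinearMap.domDomCongr e φ) = MultilinearMap.domDomCongr e (der X φ) := by
  refine MultilinearMap.ext fun v => ?_
  rw [der_apply, MultilinearMap.domDomCongr_apply, der_apply, ← e.sum_comp]
  refine Finset.sum_congr rfl fun l _ => ?_
  rw [MultilinearMap.domDomCongr_apply]
  congr 1
  funext i
  by_cases hi : i = l
  · subst hi
    rw [Function.update_self, Function.update_self]
  · rw [Function.update_of_ne hi, Function.update_of_ne (fun h => hi (e.injective h))]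

theorem der_zero_left (φ : MultilinearMap k (fun _ : κ => V) k) : der (0 : End k V) φ = 0 := by
  refine MultilinearMap.ext fun v => ?_
  simp only [der_apply, LinearMap.zero_apply, MultilinearMap.map_update_zero,
    Finset.sum_const_zero, zero_apply]

theorem kills_iff (X : End k V) (φ : MultilinearMap k (fun _ : κ => V) k) :
    der X φ = 0 ↔ ∀ v, ∑ l, φ (Function.update v l (X (v l))) = 0 := by
  constructor
  · intro h v
    rw [← der_apply, h, zero_apply]
  · intro h
    refine MultilinearMap.ext fun v => ?_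
    rw [der_apply, h v, zero_apply]

end der

section grading

variable {U : Type} [AddCommGroup U] [Module ℂ U] {H : ℤ → Submodule ℂ U}

/-- the isomorphism with the direct sum -/
noncomputable def dE (h : DirectSum.IsInternal H) : (DirectSum ℤ fun p => H p) ≃ₗ[ℂ] U :=
  LinearEquiv.ofBijective (DirectSum.coeLinearMap H) h

/-- the operator which is multiplication by `c p` on `H p` -/
noncomputable def dD (h : DirectSum.IsInternal H) (c : ℤ → ℂ) : End ℂ U :=
  DirectSum.toModule ℂ ℤ U (fun p => c p • (H p).subtype) ∘ₗ (dE h).symm.toLinearMap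

theorem dE_symm (h : DirectSum.IsInternal H) {p : ℤ} {x : U} (hx : x ∈ H p) :
    (dE h).symm x = DirectSum.lof ℂ ℤ (fun p => H p) p ⟨x, hx⟩ := by
  rw [LinearEquiv.symm_apply_eq]
  change x = DirectSum.coeLinearMap H _
  rw [DirectSum.coeLinearMap_lof]

theorem dD_apply (h : DirectSum.IsInternal H) (c : ℤ → ℂ) {p : ℤ} {x : U} (hx : x ∈ H p) :
    dD h c x = c p • x := by
  unfold dD
  rw [LinearMap.comp_apply, LinearEquiv.coe_coe, dE_symm h hx, DirectSum.toModule_lof]
  rfl

/-- an eigenvector of the operator is in one part -/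
theorem mem_of_eigen (h : DirectSum.IsInternal H) {c : ℤ → ℂ} {p : ℤ}
    (hc : ∀ j, j ≠ p → c j ≠ c p) {x : U} (hx : dD h c x = c p • x) : x ∈ H p := by
  classical
  obtain ⟨a, rfl⟩ := (dE h).surjective x
  have h1 : dD h c (dE h a) = dE h (DirectSum.toModule ℂ ℤ (DirectSum ℤ fun p => H p)
      (fun p => c p • DirectSum.lof ℂ ℤ (fun p => H p) p) a) := by
    unfold dD
    rw [LinearMap.comp_apply, LinearEquiv.coe_coe, LinearEquiv.symm_apply_apply]
    have h2 : DirectSum.toModule ℂ ℤ U (fun p => c p • (H p).subtype) = (dE h).toLinearMap ∘ₗ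
        (DirectSum.toModule ℂ ℤ (DirectSum ℤ fun p => H p)
          (fun p => c p • DirectSum.lof ℂ ℤ (fun p => H p) p)) := by
      refine DirectSum.linearMap_ext ℂ fun i => LinearMap.ext fun y => ?_
      rw [LinearMap.comp_apply, LinearMap.comp_apply, LinearMap.comp_apply,
        DirectSum.toModule_lof, DirectSum.toModule_lof, LinearMap.smul_apply, LinearMap.smul_apply,
        LinearEquiv.coe_coe, map_smul]
      congr 1
      change _ = DirectSum.coeLinearMap H _
      rw [DirectSum.coeLinearMap_lof]
      rfl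
    rw [h2]
    rfl
  rw [h1, ← map_smul] at hx
  have h3 := (dE h).injective hx
  have h4 : ∀ j, (DirectSum.toModule ℂ ℤ (DirectSum ℤ fun p => H p)
      (fun p => c p • DirectSum.lof ℂ ℤ (fun p => H p) p) a) j = c j • a j := by
    intro j
    have h5 : (DirectSum.component ℂ ℤ (fun p => H p) j) ∘ₗ (DirectSum.toModule ℂ ℤ
        (DirectSum ℤ fun p => H p) (fun p => c p • DirectSum.lof ℂ ℤ (fun p => H p) p)) =
        c j • DirectSum.component ℂ ℤ (fun p => H p) j := by
      refine DirectSum.linearMap_ext ℂ fun i => LinearMap.ext fun y => ?_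
      rw [LinearMap.comp_apply, LinearMap.comp_apply, LinearMap.comp_apply,
        DirectSum.toModule_lof, LinearMap.smul_apply, LinearMap.smul_apply, map_smul]
      by_cases hij : i = j
      · subst hij
        rfl
      · rw [DirectSum.component.of, dif_neg (fun h => hij h), smul_zero, smul_zero]
    exact LinearMap.congr_fun h5 a
  have h6 : a = DirectSum.lof ℂ ℤ (fun p => H p) p (a p) := by
    refine DFinsupp.ext fun j => ?_
    by_cases hj : j = p
    · subst hj
      change a j = (DirectSum.component ℂ ℤ (fun p => H p) j)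
        (DirectSum.lof ℂ ℤ (fun p => H p) j (a j))
      rw [DirectSum.component.lof_self]
    · have h7 := congrArg (fun b : DirectSum ℤ fun p => H p => b j) h3
      have h8 : c j • a j = c p • a j := by
        rw [← h4]
        exact h7
      have h9 : (c j - c p) • a j = 0 := by rw [sub_smul, h8, sub_self]
      have h10 : a j = 0 := (smul_eq_zero.1 h9).resolve_left (sub_ne_zero.2 (hc j hj))
      rw [h10]
      change 0 = (DirectSum.component ℂ ℤ (fun p => H p) j) (DirectSum.lof ℂ ℤ (fun p => H p) p (a p))
      rw [DirectSum.component.of, dif_neg (fun h => hj h.symm)]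
  rw [h6]
  change DirectSum.coeLinearMap H _ ∈ _
  rw [DirectSum.coeLinearMap_lof]
  exact (a p).2

/-- a basis consisting of elements of the parts -/
theorem exists_basis (h : DirectSum.IsInternal H) :
    ∃ (ι : Type) (b : Basis ι ℂ U) (g : ι → ℤ), ∀ i, b i ∈ H (g i) :=
  ⟨_, h.collectedBasis fun p => Basis.ofVectorSpace ℂ (H p), fun i => i.1,
    fun i => h.collectedBasis_mem _ i⟩

/-- a form is of type `(0, 0)` if and only if it is killed by the derivation -/
theorem grad_iff (h : DirectSum.IsInternal H) {κ : Type} [Fintype κ] [DecidableEq κ]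
    (Ψ : MultilinearMap ℂ (fun _ : κ => U) ℂ) :
    (∀ (p : κ → ℤ) (x : κ → U), (∀ l, x l ∈ H (p l)) → ∑ l, p l ≠ 0 → Ψ x = 0) ↔
      der (dD h (fun p => (p : ℂ))) Ψ = 0 := by
  have key : ∀ (p : κ → ℤ) (x : κ → U), (∀ l, x l ∈ H (p l)) →
      der (dD h (fun p => (p : ℂ))) Ψ x = ((∑ l, p l : ℤ) : ℂ) * Ψ x := by
    intro p x hx
    rw [der_apply, Int.cast_sum, Finset.sum_mul]
    refine Finset.sum_congr rfl fun l _ => ?_
    rw [dD_apply h _ (hx l), MultilinearMap.map_update_smul, Function.update_eq_self, smul_eq_mul]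
  constructor
  · intro h1
    obtain ⟨ι, b, g, hb⟩ := exists_basis h
    refine Basis.ext_multilinear (fun _ => b) fun I => ?_
    rw [key (fun l => g (I l)) _ (fun l => hb _), zero_apply]
    by_cases h2 : ∑ l, g (I l) = 0
    · rw [h2, Int.cast_zero, zero_mul]
    · rw [h1 (fun l => g (I l)) _ (fun l => hb _) h2, mul_zero]
  · intro h1 p x hx h2
    have h3 := key p x hx
    rw [h1, zero_apply] at h3
    exact (mul_eq_zero.1 h3.symm).resolve_left (Int.cast_ne_zero.2 h2)

end grading

end Pool.Agent.W5h23.Wt
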