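import Mathlib
import Pool.Agent.W5h23.Wt.Basic

/-!
# The tensors killed by the Lie algebra of the Mumford-Tate group are the Hodge classes
-/

set_option autoImplicit false

namespace Pool.Agent.W5h23.Wt

open Module TensorProduct Pool.Agent.H204R3.GP Pool.Agent.H204R3.SP Pool.Agent.TH118.MT
  Pool.Agent.Y114.RM Pool.Agent.H50.FT Pool.Agent.R913.Adj Pool.Agent Pool.Agent.W5h23.Four

section lie

variable {W : Type} [AddCommGroup W] [Module ℚ W] (H : ℤ → Submodule ℂ (ℂ ⊗[ℚ] W))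

/-- The Lie algebra of the Mumford-Tate group: the endomorphisms of `W` which kill all Hodge
classes. -/
def LQ : Submodule ℚ (End ℚ W) where
  carrier := {X | ∀ (κ : Type) [Fintype κ] [DecidableEq κ]
    (ψ : MultilinearMap ℚ (fun _ : κ => W) ℚ), IsHodgeForm H ψ → der X ψ = 0}
  zero_mem' := fun κ _ _ ψ _ => der_zero_left ψ
  add_mem' := fun {a b} ha hb κ _ _ ψ hψ => by
    rw [der_add_left, ha κ ψ hψ, hb κ ψ hψ, add_zero]
  smul_mem' := fun c a ha κ _ _ ψ hψ => by
    rw [der_smul_left, ha κ ψ hψ, smul_zero]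

variable (k : Type) [Field k] [CharZero k]

/-- The Lie algebra of the Mumford-Tate group over `k`: the endomorphisms of `k ⊗ W` which kill all
Hodge classes. -/
def LieHodge : Submodule k (End k (k ⊗[ℚ] W)) where
  carrier := {X | ∀ (κ : Type) [Fintype κ] [DecidableEq κ]
    (φ : MultilinearMap k (fun _ : κ => k ⊗[ℚ] W) k), φ ∈ HodgeForms k H κ → der X φ = 0}
  zero_mem' := fun κ _ _ ψ _ => der_zero_left ψ
  add_mem' := fun {a b} ha hb κ _ _ ψ hψ => by
    rw [der_add_left, ha κ ψ hψ, hb κ ψ hψ, add_zero]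
  smul_mem' := fun c a ha κ _ _ ψ hψ => by
    rw [der_smul_left, ha κ ψ hψ, smul_zero]

variable {H k}

theorem mem_LQ {X : End ℚ W} : X ∈ LQ H ↔ ∀ (κ : Type) [Fintype κ] [DecidableEq κ]
    (ψ : MultilinearMap ℚ (fun _ : κ => W) ℚ), IsHodgeForm H ψ → der X ψ = 0 := Iff.rfl

theorem mem_LH {X : End k (k ⊗[ℚ] W)} : X ∈ LieHodge H k ↔ ∀ (κ : Type) [Fintype κ] [DecidableEq κ]
    (φ : MultilinearMap k (fun _ : κ => k ⊗[ℚ] W) k), φ ∈ HodgeForms k H κ → der X φ = 0 :=
  Iff.rfl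

theorem lie_LH : IsLie (LieHodge H k) := by
  intro X hX Y hY κ _ _ φ hφ
  rw [kills_iff]
  exact kills_bracket ((kills_iff X φ).1 (hX κ φ hφ)) ((kills_iff Y φ).1 (hY κ φ hφ))

end lie

section coord

variable {k : Type} [Field k] [CharZero k] {W : Type} [AddCommGroup W] [Module ℚ W]
  [FiniteDimensional ℚ W] {κ : Type} [Fintype κ] [DecidableEq κ]

theorem der_coE (Z : End k (k ⊗[ℚ] W)) (π : k →ₗ[ℚ] ℚ)
    (F : MultilinearMap k (fun _ : κ => k ⊗[ℚ] W) k) (f : MultilinearMap ℚ (fun _ : κ => W) ℚ)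
    (h : ∀ w : κ → W, F (fun i => (1 : k) ⊗ₜ[ℚ] w i) = ((f w : ℚ) : k)) (w : κ → W) :
    π (der Z F (fun i => (1 : k) ⊗ₜ[ℚ] w i)) = der (coE Z π) f w := by
  rw [der_apply, der_apply, map_sum]
  refine Finset.sum_congr rfl fun l _ => ?_
  rw [pr_form π F f h, coE_apply]

theorem eq_zero_of_pr {t : k ⊗[ℚ] W} (h : ∀ π : k →ₗ[ℚ] ℚ, pr π t = 0) :
    t = 0 := by
  let b := finBasis ℚ W
  have h1 : t = ∑ i, (b.baseChange k).repr t i • (b.baseChange k i) :=
    ((b.baseChange k).sum_repr t).symm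
  rw [← LinearEquiv.map_eq_zero_iff (b.baseChange k).repr]
  ext i
  rw [Finsupp.zero_apply, ← Module.forall_dual_apply_eq_zero_iff ℚ]
  intro π
  have h2 := h π
  rw [h1, map_sum] at h2
  have h3 : ∀ j, pr π ((b.baseChange k).repr t j • (b.baseChange k j)) =
      π ((b.baseChange k).repr t j) • b j := by
    intro j
    rw [Basis.baseChange_apply, TensorProduct.smul_tmul', smul_eq_mul, mul_one, pr_tmul]
  rw [Finset.sum_congr rfl fun j _ => h3 j] at h2
  exact (Fintype.linearIndependent_iff.1 b.linearIndependent) _ h2 i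

theorem eq_zero_of_coE {Z : End k (k ⊗[ℚ] W)}
    (h : ∀ π : k →ₗ[ℚ] ℚ, coE Z π = 0) : Z = 0 := by
  refine ((finBasis ℚ W).baseChange k).ext fun i => ?_
  rw [Basis.baseChange_apply, LinearMap.zero_apply]
  refine eq_zero_of_pr fun π => ?_
  rw [← coE_apply, h π, LinearMap.zero_apply]

theorem coE_base_mul (X : W →ₗ[ℚ] W) (Z : End k (k ⊗[ℚ] W)) (π : k →ₗ[ℚ] ℚ) :
    coE (X.baseChange k * Z) π = X * coE Z π := by
  refine LinearMap.ext fun w => ?_
  rw [coE_apply, Module.End.mul_apply, Module.End.mul_apply, coE_apply, pr_baseChange]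

theorem coE_mul_base (X : W →ₗ[ℚ] W) (Z : End k (k ⊗[ℚ] W)) (π : k →ₗ[ℚ] ℚ) :
    coE (Z * X.baseChange k) π = coE Z π * X := by
  refine LinearMap.ext fun w => ?_
  rw [coE_apply, Module.End.mul_apply, Module.End.mul_apply, coE_apply, LinearMap.baseChange_tmul]

theorem trace_coE (Z : End k (k ⊗[ℚ] W)) (π : k →ₗ[ℚ] ℚ) :
    π (LinearMap.trace k _ Z) = LinearMap.trace ℚ W (coE Z π) := by
  let b := finBasis ℚ W
  rw [LinearMap.trace_eq_matrix_trace k (b.baseChange k), LinearMap.trace_eq_matrix_trace ℚ b,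
    Matrix.trace, Matrix.trace, map_sum]
  refine Finset.sum_congr rfl fun i _ => ?_
  rw [Matrix.diag_apply, Matrix.diag_apply, LinearMap.toMatrix_apply, LinearMap.toMatrix_apply,
    Basis.baseChange_apply, coE_apply]
  generalize Z ((1 : k) ⊗ₜ[ℚ] b i) = t
  induction t with
  | zero => simp only [map_zero, Finsupp.zero_apply]
  | add s t hs ht => simp only [map_add, Finsupp.add_apply, hs, ht]
  | tmul r w =>
    rw [pr_tmul, Basis.baseChange_repr_tmul, map_smul, map_smul, Finsupp.smul_apply, smul_eq_mul,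
      smul_eq_mul, mul_comm]

end coord

section descent

variable {W : Type} [AddCommGroup W] [Module ℚ W] [FiniteDimensional ℚ W]
  {H : ℤ → Submodule ℂ (ℂ ⊗[ℚ] W)} (hint : DirectSum.IsInternal H)
  {κ : Type} [Fintype κ] [DecidableEq κ]

include hint in
theorem coE_dD_mem (π : ℂ →ₗ[ℚ] ℚ) : coE (dD hint fun p => (p : ℂ)) π ∈ LQ H := by
  intro κ _ _ ψ hψ
  obtain ⟨Ψ, h1, h2⟩ := hψ
  refine MultilinearMap.ext fun w => ?_
  rw [← der_coE _ π Ψ ψ h1 w, (grad_iff hint Ψ).1 h2, zero_apply, zero_apply, map_zero]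

include hint in
/-- A rational form killed by all endomorphisms of `W` which kill all Hodge classes is a Hodge
class. -/
theorem hodge_of_killed {ψ : MultilinearMap ℚ (fun _ : κ => W) ℚ}
    (h : ∀ X ∈ LQ H, der X ψ = 0) : IsHodgeForm H ψ := by
  classical
  let b₀ := finBasis ℚ W
  have hΨ : ∀ w : κ → W, bcm (Ω := ℂ) b₀ ψ (fun l => (1 : ℂ) ⊗ₜ[ℚ] w l) = ((ψ w : ℚ) : ℂ) := by
    intro w
    rw [bcm_one, eq_ratCast]
  refine ⟨bcm (Ω := ℂ) b₀ ψ, hΨ, (grad_iff hint _).2 ?_⟩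
  refine Basis.ext_multilinear (fun _ => b₀.baseChange ℂ) fun I => ?_
  simp only [Basis.baseChange_apply]
  rw [zero_apply, ← Module.forall_dual_apply_eq_zero_iff ℚ]
  intro π
  rw [der_coE _ π _ ψ hΨ (fun l => b₀ (I l)), h _ (coE_dD_mem hint π), zero_apply]

variable {k : Type} [Field k] [CharZero k]

/-- an endomorphism of `W` which kills the Hodge classes kills them over `k` -/
theorem base_mem {X : End ℚ W} (h : X ∈ LQ H) : X.baseChange k ∈ LieHodge H k := by
  classical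
  intro κ _ _ φ hφ
  induction hφ using Submodule.span_induction with
  | zero => exact der_zero_right _
  | add φ φ' _ _ h1 h2 => rw [der_add_right, h1, h2, add_zero]
  | smul c φ _ h1 => rw [der_smul_right, h1, smul_zero]
  | mem φ hφ =>
    obtain ⟨ψ, hψ, hc⟩ := hφ
    refine Basis.ext_multilinear (fun _ => (finBasis ℚ W).baseChange k) fun I => ?_
    rw [der_apply, zero_apply]
    simp only [Basis.baseChange_apply, LinearMap.baseChange_tmul]
    have h1 : ∀ l, Function.update (fun i => (1 : k) ⊗ₜ[ℚ] (finBasis ℚ W) (I i)) l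
        ((1 : k) ⊗ₜ[ℚ] X ((finBasis ℚ W) (I l))) = fun i => (1 : k) ⊗ₜ[ℚ]
          ((Function.update (fun i => (finBasis ℚ W) (I i)) l (X ((finBasis ℚ W) (I l)))) i) := by
      intro l
      funext i
      by_cases hi : i = l
      · subst hi
        rw [Function.update_self, Function.update_self]
      · rw [Function.update_of_ne hi, Function.update_of_ne hi]
    have h2 : ∑ l, φ (Function.update (fun i => (1 : k) ⊗ₜ[ℚ] (finBasis ℚ W) (I i)) l
        ((1 : k) ⊗ₜ[ℚ] X ((finBasis ℚ W) (I l)))) =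
        ((der X ψ (fun i => (finBasis ℚ W) (I i)) : ℚ) : k) := by
      rw [der_apply, Rat.cast_sum]
      refine Finset.sum_congr rfl fun l _ => ?_
      rw [h1, hc]
    rw [h2, h κ ψ hψ, zero_apply, Rat.cast_zero]

theorem coE_mem {X : End k (k ⊗[ℚ] W)} (h : X ∈ LieHodge H k) (π : k →ₗ[ℚ] ℚ) : coE X π ∈ LQ H := by
  classical
  intro κ _ _ ψ hψ
  have h1 : ∀ w : κ → W, bcm (Ω := k) (finBasis ℚ W) ψ (fun l => (1 : k) ⊗ₜ[ℚ] w l) =
      ((ψ w : ℚ) : k) := by
    intro w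
    rw [bcm_one, eq_ratCast]
  refine MultilinearMap.ext fun w => ?_
  rw [← der_coE _ π _ ψ h1 w, h κ _ (Submodule.subset_span ⟨ψ, hψ, h1⟩), zero_apply, zero_apply,
    map_zero]

/-- a form over `k` is a combination of Hodge classes if all its coordinates are Hodge classes -/
theorem mem_of_coord (φ : MultilinearMap k (fun _ : κ => k ⊗[ℚ] W) k)
    (h : ∀ π : k →ₗ[ℚ] ℚ, ∀ ψ : MultilinearMap ℚ (fun _ : κ => W) ℚ,
      (∀ w, ψ w = π (φ (fun l => (1 : k) ⊗ₜ[ℚ] w l))) → IsHodgeForm H ψ) :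
    φ ∈ HodgeForms k H κ := by
  classical
  let b₀ := finBasis ℚ W
  let B : Basis _ ℚ k := Basis.ofVectorSpace ℚ k
  let inc : W →ₗ[ℚ] k ⊗[ℚ] W := TensorProduct.mk ℚ k W 1
  let ψ := fun i => (B.coord i).compMultilinearMap
    ((φ.restrictScalars ℚ).compLinearMap (fun _ : κ => inc))
  have hψ : ∀ i w, ψ i w = B.coord i (φ (fun l => (1 : k) ⊗ₜ[ℚ] w l)) := fun i w => rfl
  have hH : ∀ i, IsHodgeForm H (ψ i) := fun i => h _ _ (hψ i)
  let S := Finset.univ.biUnion fun I : κ → Fin (finrank ℚ W) =>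
    (B.repr (φ (fun l => (1 : k) ⊗ₜ[ℚ] b₀ (I l)))).support
  have h1 : φ = ∑ i ∈ S, B i • bcm (Ω := k) b₀ (ψ i) := by
    refine Basis.ext_multilinear (fun _ => b₀.baseChange k) fun I => ?_
    rw [sum_apply]
    simp only [Basis.baseChange_apply, smul_apply]
    have h2 := B.linearCombination_repr (φ (fun l => (1 : k) ⊗ₜ[ℚ] b₀ (I l)))
    have hsub : (B.repr (φ (fun l => (1 : k) ⊗ₜ[ℚ] b₀ (I l)))).support ⊆ S :=
      fun i hi => Finset.mem_biUnion.2 ⟨I, Finset.mem_univ _, hi⟩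
    rw [Finsupp.linearCombination_apply, Finsupp.sum_of_support_subset _ hsub
      (fun i a => a • B i) (fun i _ => zero_smul _ _)] at h2
    rw [← h2]
    refine Finset.sum_congr rfl fun i _ => ?_
    rw [bcm_one, hψ, Basis.coord_apply, smul_eq_mul, Algebra.smul_def, mul_comm]
  rw [h1]
  refine Submodule.sum_mem _ fun i _ => Submodule.smul_mem _ _ (Submodule.subset_span
    ⟨ψ i, hH i, fun v => ?_⟩)
  rw [bcm_one, eq_ratCast]

include hint in
/-- **The tensors killed by the Lie algebra of the Mumford-Tate group are combinations of Hodge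
classes.** -/
theorem mem_of_killed {φ : MultilinearMap k (fun _ : κ => k ⊗[ℚ] W) k}
    (h : ∀ X ∈ LieHodge H k, der X φ = 0) : φ ∈ HodgeForms k H κ := by
  classical
  refine mem_of_coord φ fun π ψ hψ => hodge_of_killed hint fun X hX => ?_
  have h1 := h _ (base_mem (k := k) hX)
  refine MultilinearMap.ext fun w => ?_
  have h2 := congrArg (fun F : MultilinearMap k (fun _ : κ => k ⊗[ℚ] W) k =>
    F (fun l => (1 : k) ⊗ₜ[ℚ] w l)) h1
  simp only [der_apply, zero_apply] at h2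
  rw [der_apply, zero_apply]
  have h3 := congrArg π h2
  rw [map_sum, map_zero] at h3
  rw [← h3]
  refine Finset.sum_congr rfl fun l _ => ?_
  rw [hψ, LinearMap.baseChange_tmul]
  congr 2
  funext i
  by_cases hi : i = l
  · subst hi
    rw [Function.update_self, Function.update_self]
  · rw [Function.update_of_ne hi, Function.update_of_ne hi]

omit [FiniteDimensional ℚ W] [DecidableEq κ] in
theorem hodge_zero : IsHodgeForm H (0 : MultilinearMap ℚ (fun _ : κ => W) ℚ) :=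
  ⟨0, fun w => by rw [zero_apply, zero_apply, Rat.cast_zero], fun p x _ _ => zero_apply _⟩

omit [FiniteDimensional ℚ W] [DecidableEq κ] in
theorem hodge_add {ψ ψ' : MultilinearMap ℚ (fun _ : κ => W) ℚ} (h : IsHodgeForm H ψ)
    (h' : IsHodgeForm H ψ') : IsHodgeForm H (ψ + ψ') := by
  obtain ⟨Ψ, h1, h2⟩ := h
  obtain ⟨Ψ', h1', h2'⟩ := h'
  refine ⟨Ψ + Ψ', fun w => ?_, fun p x hx hp => ?_⟩
  · rw [add_apply, add_apply, h1, h1', Rat.cast_add]
  · rw [add_apply, h2 p x hx hp, h2' p x hx hp, add_zero]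

omit [FiniteDimensional ℚ W] [DecidableEq κ] in
theorem hodge_smul {ψ : MultilinearMap ℚ (fun _ : κ => W) ℚ} (c : ℚ) (h : IsHodgeForm H ψ) :
    IsHodgeForm H (c • ψ) := by
  obtain ⟨Ψ, h1, h2⟩ := h
  refine ⟨(c : ℂ) • Ψ, fun w => ?_, fun p x hx hp => ?_⟩
  · rw [smul_apply, smul_apply, h1, smul_eq_mul, smul_eq_mul, Rat.cast_mul]
  · rw [smul_apply, h2 p x hx hp, smul_zero]

omit [FiniteDimensional ℚ W] [DecidableEq κ] in
/-- the coordinates of a combination of Hodge classes are Hodge classes -/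
theorem coord_of_mem {φ : MultilinearMap k (fun _ : κ => k ⊗[ℚ] W) k}
    (h : φ ∈ HodgeForms k H κ) : ∀ π : k →ₗ[ℚ] ℚ, ∀ ψ : MultilinearMap ℚ (fun _ : κ => W) ℚ,
      (∀ w, ψ w = π (φ (fun l => (1 : k) ⊗ₜ[ℚ] w l))) → IsHodgeForm H ψ := by
  let inc : W →ₗ[ℚ] k ⊗[ℚ] W := TensorProduct.mk ℚ k W 1
  let Q : (k →ₗ[ℚ] ℚ) → MultilinearMap k (fun _ : κ => k ⊗[ℚ] W) k →
    MultilinearMap ℚ (fun _ : κ => W) ℚ := fun π φ =>
      π.compMultilinearMap ((φ.restrictScalars ℚ).compLinearMap (fun _ : κ => inc))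
  have hQ : ∀ π φ w, Q π φ w = π (φ (fun l => (1 : k) ⊗ₜ[ℚ] w l)) := fun π φ w => rfl
  suffices h1 : ∀ π, IsHodgeForm H (Q π φ) by
    intro π ψ hψ
    have h2 : ψ = Q π φ := MultilinearMap.ext fun w => hψ w
    rw [h2]
    exact h1 π
  induction h using Submodule.span_induction with
  | zero =>
    intro π
    have h2 : Q π 0 = 0 := MultilinearMap.ext fun w => by
      rw [hQ, zero_apply, zero_apply, map_zero]
    rw [h2]
    exact hodge_zero
  | add φ φ' _ _ h1 h2 =>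
    intro π
    have h3 : Q π (φ + φ') = Q π φ + Q π φ' := MultilinearMap.ext fun w => by
      rw [hQ, add_apply, add_apply, map_add, hQ, hQ]
    rw [h3]
    exact hodge_add (h1 π) (h2 π)
  | smul c φ _ h1 =>
    intro π
    have h3 : Q π (c • φ) = Q (π ∘ₗ LinearMap.mulLeft ℚ c) φ := MultilinearMap.ext fun w => rfl
    rw [h3]
    exact h1 _
  | mem φ hφ =>
    intro π
    obtain ⟨ψ, hψ, hc⟩ := hφ
    have h3 : Q π φ = π 1 • ψ := MultilinearMap.ext fun w => by
      have h4 : ((ψ w : ℚ) : k) = ψ w • (1 : k) := by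
        rw [Algebra.smul_def, mul_one, eq_ratCast]
      rw [hQ, hc, h4, map_smul, smul_apply, smul_eq_mul, smul_eq_mul, mul_comm]
    rw [h3]
    exact hodge_smul _ hψ

end descent

end Pool.Agent.W5h23.Wt
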