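import Mathlib
import Pool.Agent.W5h23.Wt.Descent

/-!
# Forms in two variables and endomorphisms of the Hodge structure
-/

set_option autoImplicit false

namespace Pool.Agent.W5h23.Wt

open Module TensorProduct Pool.Agent.H204R3.GP Pool.Agent.H204R3.SP Pool.Agent.TH118.MT
  Pool.Agent.Y114.RM Pool.Agent.H50.FT Pool.Agent.R913.Adj Pool.Agent Pool.Agent.W5h23.Four
  Pool.Agent.W522.U

section bil

variable {k V : Type} [Field k] [AddCommGroup V] [Module k V]

theorem bil2_apply (B : V →ₗ[k] V →ₗ[k] k) (v : Fin 2 → V) : bil2 B v = B (v 0) (v 1) := rfl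

theorem der_bil2 (X : End k V) (B : V →ₗ[k] V →ₗ[k] k) (v : Fin 2 → V) :
    der X (bil2 B) v = B (X (v 0)) (v 1) + B (v 0) (X (v 1)) := by
  rw [der_apply, Fin.sum_univ_two, bil2_apply, bil2_apply, Function.update_self,
    Function.update_self, Function.update_of_ne Fin.zero_ne_one.symm,
    Function.update_of_ne Fin.zero_ne_one]

theorem der_bil2_iff (X : End k V) (B : V →ₗ[k] V →ₗ[k] k) :
    der X (bil2 B) = 0 ↔ ∀ x y, B (X x) y + B x (X y) = 0 := by
  constructor
  · intro h x y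
    have h1 := congrArg (fun F : MultilinearMap k (fun _ : Fin 2 => V) k => F ![x, y]) h
    simp only [der_bil2, zero_apply] at h1
    exact h1
  · intro h
    refine MultilinearMap.ext fun v => ?_
    rw [der_bil2, h, zero_apply]

end bil

section hodge

variable {W : Type} [AddCommGroup W] [Module ℚ W] [FiniteDimensional ℚ W]
  {H : ℤ → Submodule ℂ (ℂ ⊗[ℚ] W)} {q₀ : W →ₗ[ℚ] W →ₗ[ℚ] ℚ}

omit [FiniteDimensional ℚ W] in
theorem nondeg_left (hP : IsPolarisedHodge H q₀) : ∀ u, (∀ v, q₀ u v = 0) → u = 0 :=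
  fun u hu => hP.nondeg u fun v => by rw [hP.symm, hu]

theorem nondeg_bcb {K : Type} [Field K] [CharZero K] (hP : IsPolarisedHodge H q₀) :
    ∀ u, (∀ v, bcb K q₀ u v = 0) → u = 0 :=
  fun u hu => bcb_nondeg_left q₀ hP.nondeg (nondeg_left hP) u hu

omit [FiniteDimensional ℚ W] in
theorem symm_bcb {K : Type} [Field K] [CharZero K] (hP : IsPolarisedHodge H q₀)
    (u v : K ⊗[ℚ] W) : bcb K q₀ u v = bcb K q₀ v u := by
  induction u with
  | zero => simp only [map_zero, LinearMap.zero_apply]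
  | add u u' hu hu' => rw [map_add, LinearMap.add_apply, hu, hu', map_add]
  | tmul a u =>
    induction v with
    | zero => simp only [map_zero, LinearMap.zero_apply]
    | add v v' hv hv' => rw [map_add, LinearMap.map_add₂, hv, hv']
    | tmul b v => rw [bcb_tmul, bcb_tmul, hP.symm u v, mul_comm]

omit [FiniteDimensional ℚ W] in
theorem hodge_q (hP : IsPolarisedHodge H q₀) : IsHodgeForm H (bil2 q₀) := by
  refine ⟨bil2 (bcb ℂ q₀), fun w => ?_, fun p x hx hp => ?_⟩
  · rw [bil2_apply, bil2_apply, bcb_one, eq_ratCast]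
  · rw [Fin.sum_univ_two] at hp
    exact hP.orth _ _ hp _ (hx 0) _ (hx 1)

theorem hodge_endo_form (hP : IsPolarisedHodge H q₀) {P : W →ₗ[ℚ] W} (h : IsHodgeEndo H P) :
    IsHodgeForm H (bil2 (q₀ ∘ₗ P)) := by
  refine ⟨bil2 (bcb ℂ (q₀ ∘ₗ P)), fun w => ?_, fun p x hx hp => ?_⟩
  · rw [bil2_apply, bil2_apply, bcb_one, eq_ratCast]
  · rw [Fin.sum_univ_two] at hp
    rw [bil2_apply, bcb_comp]
    exact hP.orth _ _ hp _ (h _ _ (hx 0)) _ (hx 1)

theorem endo_of_form (hP : IsPolarisedHodge H q₀) {P : W →ₗ[ℚ] W}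
    (h : IsHodgeForm H (bil2 (q₀ ∘ₗ P))) : IsHodgeEndo H P := by
  obtain ⟨Ψ, h1, h2⟩ := h
  have h3 : Ψ = bil2 (bcb ℂ (q₀ ∘ₗ P)) := by
    refine Basis.ext_multilinear (fun _ => (finBasis ℚ W).baseChange ℂ) fun I => ?_
    simp only [Basis.baseChange_apply]
    rw [h1 (fun l => finBasis ℚ W (I l)), bil2_apply, bil2_apply, bcb_one, eq_ratCast]
  have h4 := (grad_iff hP.internal Ψ).1 h2
  rw [h3, der_bil2_iff] at h4
  have h5 := (grad_iff hP.internal (bil2 (bcb ℂ q₀))).1 (fun p x hx hp => by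
    rw [Fin.sum_univ_two] at hp
    exact hP.orth _ _ hp _ (hx 0) _ (hx 1))
  rw [der_bil2_iff] at h5
  have h6 : ∀ x, P.baseChange ℂ (dD hP.internal (fun p => (p : ℂ)) x) =
      dD hP.internal (fun p => (p : ℂ)) (P.baseChange ℂ x) := by
    intro x
    rw [← sub_eq_zero]
    refine nondeg_bcb hP _ fun y => ?_
    have h7 := h4 x y
    have h8 := h5 (P.baseChange ℂ x) y
    rw [bcb_comp, bcb_comp] at h7
    rw [map_sub, LinearMap.sub_apply]
    linear_combination h7 - h8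
  intro p x hx
  refine mem_of_eigen hP.internal (c := fun p => (p : ℂ)) (fun j hj h => hj (Int.cast_injective h)) ?_
  rw [← h6, dD_apply _ _ hx, map_smul]

variable {k : Type} [Field k] [CharZero k]

omit [FiniteDimensional ℚ W] in
theorem q_mem (hP : IsPolarisedHodge H q₀) : bil2 (bcb k q₀) ∈ HodgeForms k H (Fin 2) :=
  Submodule.subset_span ⟨bil2 q₀, hodge_q hP, fun w => by
    rw [bil2_apply, bil2_apply, bcb_one, eq_ratCast]⟩

theorem endo_mem (hP : IsPolarisedHodge H q₀) {P : W →ₗ[ℚ] W} (h : IsHodgeEndo H P) :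
    bil2 (bcb k (q₀ ∘ₗ P)) ∈ HodgeForms k H (Fin 2) :=
  Submodule.subset_span ⟨bil2 (q₀ ∘ₗ P), hodge_endo_form hP h, fun w => by
    rw [bil2_apply, bil2_apply, bcb_one, eq_ratCast]⟩

omit [FiniteDimensional ℚ W] in
theorem skew_of_mem (hP : IsPolarisedHodge H q₀) {X : End k (k ⊗[ℚ] W)} (hX : X ∈ LieHodge H k)
    (x y : k ⊗[ℚ] W) : bcb k q₀ (X x) y + bcb k q₀ x (X y) = 0 :=
  (der_bil2_iff X _).1 (hX _ _ (q_mem hP)) x y

/-- a skew endomorphism which kills the form attached to `P` commutes with `P` -/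
theorem comm_of_kills (hP : IsPolarisedHodge H q₀) {X : End k (k ⊗[ℚ] W)}
    (hX : ∀ x y, bcb k q₀ (X x) y + bcb k q₀ x (X y) = 0) {P : W →ₗ[ℚ] W}
    (h : der X (bil2 (bcb k (q₀ ∘ₗ P))) = 0) : X * P.baseChange k = P.baseChange k * X := by
  rw [der_bil2_iff] at h
  refine LinearMap.ext fun x => ?_
  rw [← sub_eq_zero]
  refine nondeg_bcb hP _ fun y => ?_
  rw [map_sub, LinearMap.sub_apply, Module.End.mul_apply, Module.End.mul_apply]
  have h1 := h x y
  have h2 := hX (P.baseChange k x) y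
  rw [bcb_comp, bcb_comp] at h1
  linear_combination h2 - h1

theorem comm_endo (hP : IsPolarisedHodge H q₀) {X : End k (k ⊗[ℚ] W)} (hX : X ∈ LieHodge H k)
    {P : W →ₗ[ℚ] W} (h : IsHodgeEndo H P) : X * P.baseChange k = P.baseChange k * X :=
  comm_of_kills hP (skew_of_mem hP hX) (hX _ _ (endo_mem hP h))

theorem coE_endo (hP : IsPolarisedHodge H q₀) {Z : End k (k ⊗[ℚ] W)}
    (hZ : bil2 (bcb k q₀ ∘ₗ Z) ∈ HodgeForms k H (Fin 2)) (π : k →ₗ[ℚ] ℚ) :
    IsHodgeEndo H (coE Z π) := by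
  refine endo_of_form hP (coord_of_mem hZ π _ fun w => ?_)
  rw [bil2_apply, bil2_apply]
  change q₀ (coE Z π (w 0)) (w 1) = π (bcb k q₀ (Z ((1 : k) ⊗ₜ[ℚ] w 0)) ((1 : k) ⊗ₜ[ℚ] w 1))
  rw [pr_bil_left, coE_apply]

/-- a skew endomorphism in the centre of the algebra of endomorphisms is zero -/
theorem zero_of_central (hP : IsPolarisedHodge H q₀) (hC : AdjointTrivialOnCentre H q₀)
    {Z : End k (k ⊗[ℚ] W)} (hs : ∀ x y, bcb k q₀ (Z x) y + bcb k q₀ x (Z y) = 0)
    (hZ : bil2 (bcb k q₀ ∘ₗ Z) ∈ HodgeForms k H (Fin 2))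
    (hc : ∀ P : W →ₗ[ℚ] W, IsHodgeEndo H P → Z * P.baseChange k = P.baseChange k * Z) : Z = 0 := by
  refine eq_zero_of_coE fun π => LinearMap.ext fun x => ?_
  rw [LinearMap.zero_apply]
  refine nondeg_left hP _ fun y => ?_
  have h1 := hC (coE Z π) (coE_endo hP hZ π) (fun Q hQ w => by
    have h2 : coE Z π * Q = Q * coE Z π := by
      rw [← coE_mul_base, ← coE_base_mul, hc Q hQ]
    exact LinearMap.congr_fun h2 w) x y
  have h3 := congrArg π (hs ((1 : k) ⊗ₜ[ℚ] x) ((1 : k) ⊗ₜ[ℚ] y))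
  rw [map_add, pr_bil_left, pr_bil_right, map_zero, ← coE_apply, ← coE_apply, ← h1] at h3
  linarith

end hodge

section tate

variable {k V Γ : Type} [Field k] [AddCommGroup V] [Module k V] [Group Γ]
  {ρ : Representation k Γ V} {κ : Type} [Fintype κ] [DecidableEq κ]

/-- an endomorphism which kills the Tate tensors kills the Tate forms -/
theorem kills_tate {X : End k V}
    (hX : ∀ (m : ℕ) (Φ : Tensor k V m), TateTensor ρ Φ → KillsTensor X Φ)
    {φ : MultilinearMap k (fun _ : κ => V) k} (hφ : IsTateForm ρ φ) : der X φ = 0 := by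
  let e : κ ≃ Fin (Fintype.card κ) := Fintype.equivFin κ
  let Φ : Tensor k V (Fintype.card κ) := MultilinearMap.domDomCongr e
    (φ.compLinearMap (fun _ => LinearMap.fst k V (Dual k V)))
  have hΦ : ∀ w, Φ w = φ (fun i => (w (e i)).1) := fun w => rfl
  have hT : TateTensor ρ Φ := by
    obtain ⟨Δ, hΔ, h⟩ := hφ
    exact ⟨Δ, hΔ, fun s hs w => h s hs (fun i => (w (e i)).1)⟩
  rw [kills_iff]
  intro v
  have h1 := hX _ Φ hT (fun j => (v (e.symm j), 0))
  rw [← e.sum_comp] at h1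
  rw [← h1]
  refine Finset.sum_congr rfl fun l _ => ?_
  rw [hΦ]
  congr 1
  funext i
  by_cases hi : i = l
  · subst hi
    rw [Function.update_self, Function.update_self]
    change _ = X (v (e.symm (e i)))
    rw [Equiv.symm_apply_apply]
  · rw [Function.update_of_ne hi, Function.update_of_ne (fun h => hi (e.injective h)),
      Equiv.symm_apply_apply]

omit [Fintype κ] [DecidableEq κ] in
theorem tate_endo_form {q : V →ₗ[k] V →ₗ[k] k} (hq : ∀ s u v, q (ρ s u) (ρ s v) = q u v)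
    {Z : End k V} {Δ : Subgroup Γ} (hΔ : Δ.FiniteIndex) (hZ : ∀ s ∈ Δ, ρ s * Z = Z * ρ s) :
    IsTateForm ρ (bil2 (q ∘ₗ Z)) := by
  refine ⟨Δ, hΔ, fun s hs v => ?_⟩
  change q (Z (ρ s (v 0))) (ρ s (v 1)) = q (Z (v 0)) (v 1)
  rw [← Module.End.mul_apply, ← hZ s hs, Module.End.mul_apply, hq]

omit [Fintype κ] [DecidableEq κ] in
theorem tate_q {q : V →ₗ[k] V →ₗ[k] k} (hq : ∀ s u v, q (ρ s u) (ρ s v) = q u v) :
    IsTateForm ρ (bil2 q) := ⟨⊤, inferInstance, fun s _ v => hq s _ _⟩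

end tate

section symm

variable {k V : Type} [Field k] [AddCommGroup V] [Module k V] [FiniteDimensional k V]
  (q : V →ₗ[k] V →ₗ[k] k) (hsym : ∀ u v, q u v = q v u)

include hsym in
theorem trace_mul_rk_anti {Y : End k V} (hY : ∀ x y, q (Y x) y + q x (Y y) = 0) (a b : V) :
    LinearMap.trace k V (Y * rk a (q b)) = -LinearMap.trace k V (Y * rk b (q a)) := by
  rw [mul_rk, mul_rk, Four.trace_rk, Four.trace_rk]
  have h1 := hY a b
  have h2 := hsym (Y a) b
  linear_combination h1 - h2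

variable {L : Submodule k (End k V)} (hnd : NonDeg L)
  (hsp : ∀ Y ∈ L, ∀ x y, q (Y x) y + q x (Y y) = 0)

include hsym hsp in
theorem pf_symAlt : IsSymAlt (pf q (oproj L hnd)) := by
  intro a b c d
  have hf : ∀ a b c d : V, four a b c d = quad a b c d := fun _ _ _ _ => rfl
  rw [hf, hf, hf, pf_quad, pf_quad, pf_quad]
  constructor
  · have h1 : rk a (q b) + rk b (q a) ∈ (trf k V).orthogonal L := by
      rw [LinearMap.BilinForm.mem_orthogonal_iff]
      intro Y hY
      change LinearMap.trace k V (Y * (rk a (q b) + rk b (q a))) = 0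
      rw [mul_add, map_add, trace_mul_rk_anti q hsym (hsp Y hY), neg_add_cancel]
    have h2 := oproj_perp hnd h1
    rw [map_add, add_eq_zero_iff_eq_neg] at h2
    rw [h2, LinearMap.neg_apply, map_neg, LinearMap.neg_apply]
  · have h1 : ∀ a b c d, q (oproj L hnd (rk a (q b)) c) d =
        LinearMap.trace k V (oproj L hnd (rk a (q b)) * oproj L hnd (rk c (q d))) := by
      intro a b c d
      have h2 : LinearMap.trace k V (oproj L hnd (rk a (q b)) * (rk c (q d) -
          oproj L hnd (rk c (q d)))) = 0 :=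
        (LinearMap.BilinForm.mem_orthogonal_iff.1 (sub_oproj hnd (rk c (q d)))) _ (oproj_mem hnd _)
      rw [mul_sub, map_sub, mul_rk, Four.trace_rk, sub_eq_zero] at h2
      rw [← h2]
      exact hsym _ _
    rw [h1 a b c d, h1 c d a b, LinearMap.trace_mul_comm]

end symm

end Pool.Agent.W5h23.Wt
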