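import Mathlib
import Pool.Agent.W5h23.Wt.Endo

/-!
# The two Lie algebras
-/

set_option autoImplicit false

namespace Pool.Agent.W5h23.Wt

open Module TensorProduct Pool.Agent.H204R3.GP Pool.Agent.H204R3.SP Pool.Agent.TH118.MT
  Pool.Agent.Y114.RM Pool.Agent.H50.FT Pool.Agent.R913.Adj Pool.Agent Pool.Agent.W5h23.Four

section core

variable {k : Type} [Field k] [CharZero k] {W : Type} [AddCommGroup W] [Module ℚ W]
  [FiniteDimensional ℚ W] {H : ℤ → Submodule ℂ (ℂ ⊗[ℚ] W)} {q₀ : W →ₗ[ℚ] W →ₗ[ℚ] ℚ}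
  (hP : IsPolarisedHodge H q₀) (hC : AdjointTrivialOnCentre H q₀)
  {L : Submodule k (End k (k ⊗[ℚ] W))}

include hP hC in
/-- an endomorphism which kills the class of the projection to `L` is in `L` -/
theorem mem_of_kills_class (hnd : NonDeg L) (hLie : IsLie L)
    (hsp : ∀ Y ∈ L, ∀ x y, bcb k q₀ (Y x) y + bcb k q₀ x (Y y) = 0)
    (hLP : ∀ Y ∈ L, ∀ P : W →ₗ[ℚ] W, IsHodgeEndo H P → Y * P.baseChange k = P.baseChange k * Y)
    (hLH : ∀ Z : End k (k ⊗[ℚ] W), (∀ Y ∈ L, Y * Z = Z * Y) →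
      bil2 (bcb k q₀ ∘ₗ Z) ∈ HodgeForms k H (Fin 2))
    {X : End k (k ⊗[ℚ] W)} (hX : ∀ x y, bcb k q₀ (X x) y + bcb k q₀ x (X y) = 0)
    (hXP : ∀ P : W →ₗ[ℚ] W, IsHodgeEndo H P → X * P.baseChange k = P.baseChange k * X)
    (hk : der X (pf (bcb k q₀) (oproj L hnd)) = 0) : X ∈ L := by
  have hid : ∀ Y ∈ L, X * Y - Y * X ∈ L := by
    intro Y hY
    have h1 := pf_comm (bcb k q₀) (nondeg_bcb hP) (μ := 0) (fun x y => by rw [hX, zero_mul])
      (fun v => by rw [mul_zero, zero_mul]; exact (kills_iff X _).1 hk v) Y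
    rw [oproj_of_mem hnd hY] at h1
    rw [← h1]
    exact oproj_mem hnd _
  have hZ : ∀ Y ∈ L, Y * (X - oproj L hnd X) = (X - oproj L hnd X) * Y := fun Y hY =>
    sub_oproj_comm hnd hLie hid hY
  have h0 : X - oproj L hnd X = 0 := by
    refine zero_of_central hP hC (fun x y => ?_) (hLH _ hZ) fun P hPP => ?_
    · have h1 := hX x y
      have h2 := hsp _ (oproj_mem hnd X) x y
      rw [LinearMap.sub_apply, LinearMap.sub_apply, map_sub, map_sub, LinearMap.sub_apply]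
      linear_combination h1 - h2
    · have e1 : (X - oproj L hnd X) * P.baseChange k =
          X * P.baseChange k - oproj L hnd X * P.baseChange k := LinearMap.ext fun _ => rfl
      have e2 : P.baseChange k * (X - oproj L hnd X) =
          P.baseChange k * X - P.baseChange k * oproj L hnd X :=
        LinearMap.ext fun x => map_sub (P.baseChange k) (X x) (oproj L hnd X x)
      rw [e1, e2, hXP P hPP, hLP _ (oproj_mem hnd X) P hPP]
  have h1 : X = oproj L hnd X := sub_eq_zero.1 h0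
  rw [h1]
  exact oproj_mem hnd X

end core

section killed

variable {k : Type} [Field k] {V : Type} [AddCommGroup V] [Module k V] [FiniteDimensional k V]
  {q : V →ₗ[k] V →ₗ[k] k} {L : Submodule k (End k V)}

/-- the orthogonal projection commutes with the adjoint action of `L` -/
theorem oproj_bracket (hnd : NonDeg L) (hLie : IsLie L) {X : End k V} (hX : X ∈ L) (R : End k V) :
    oproj L hnd (X * R - R * X) = X * oproj L hnd R - oproj L hnd R * X := by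
  obtain ⟨R', hR'⟩ : ∃ R', R' = R - oproj L hnd R := ⟨_, rfl⟩
  have h1 : X * R' - R' * X ∈ (trf k V).orthogonal L := by
    rw [LinearMap.BilinForm.mem_orthogonal_iff]
    intro Y hY
    change LinearMap.trace k V (Y * (X * R' - R' * X)) = 0
    have h3 := (LinearMap.BilinForm.mem_orthogonal_iff.1 (sub_oproj hnd R)) _ (hLie Y hY X hX)
    rw [← hR'] at h3
    change LinearMap.trace k V ((Y * X - X * Y) * R') = 0 at h3
    rw [← h3, sub_mul, mul_sub, map_sub, map_sub, ← mul_assoc, ← mul_assoc, mul_assoc X Y R',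
      LinearMap.trace_mul_comm k X (Y * R')]
  have h2 : X * R - R * X = (X * oproj L hnd R - oproj L hnd R * X) + (X * R' - R' * X) := by
    rw [hR', mul_sub, sub_mul]
    abel
  rw [h2, map_add, oproj_perp hnd h1, add_zero, oproj_of_mem hnd (hLie X hX _ (oproj_mem hnd R))]

/-- the class of an equivariant operator is killed -/
theorem pf_killed {X : End k V} (hX : ∀ x y, q (X x) y + q x (X y) = 0)
    {P : End k V →ₗ[k] End k V} (hP : ∀ R, P (X * R - R * X) = X * P R - P R * X) :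
    der X (pf q P) = 0 := by
  refine MultilinearMap.ext fun v => ?_
  rw [der_apply, zero_apply, Fintype.sum_prod_type]
  simp only [Fin.sum_univ_two, pf_apply]
  simp only [Function.update_self, ne_eq, Function.update_of_ne, Prod.mk.injEq,
      not_true_eq_false, not_false_eq_true, false_and, and_false, and_true, true_and,
      one_ne_zero, zero_ne_one]
  set a := v (0, 0)
  set b := v (0, 1)
  set c := v (1, 0)
  set d := v (1, 1)
  have h3 : rk (X a) (q b) = X * rk a (q b) := (mul_rk X a (q b)).symm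
  have h4 : rk a (q (X b)) = -(rk a (q b) * X) := by
    refine LinearMap.ext fun y => ?_
    rw [rk_apply, LinearMap.neg_apply, Module.End.mul_apply, rk_apply, ← neg_smul]
    congr 1
    linear_combination hX b y
  have h5 := LinearMap.congr_fun (hP (rk a (q b))) c
  rw [map_sub, LinearMap.sub_apply, LinearMap.sub_apply, Module.End.mul_apply,
    Module.End.mul_apply] at h5
  have h6 := congrArg (fun u => q u d) h5
  simp only [map_sub, LinearMap.sub_apply] at h6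
  rw [h3, h4, map_neg, LinearMap.neg_apply, map_neg, LinearMap.neg_apply]
  have h7 := hX (P (rk a (q b)) c) d
  linear_combination h6 + h7

end killed

section main

variable {ℓ : ℕ} [Fact ℓ.Prime] {W : Type} [AddCommGroup W] [Module ℚ W]
  [FiniteDimensional ℚ W] {H : ℤ → Submodule ℂ (ℂ ⊗[ℚ] W)} {q₀ : W →ₗ[ℚ] W →ₗ[ℚ] ℚ}
  (hP : IsPolarisedHodge H q₀) (hC : AdjointTrivialOnCentre H q₀)
  {Γ : Type} [Group Γ] [TopologicalSpace Γ] [IsTopologicalGroup Γ] [CompactSpace Γ]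
  {ρ : Representation ℚ_[ℓ] Γ (ℚ_[ℓ] ⊗[ℚ] W)}
  (hcont : ∀ (f : Dual ℚ_[ℓ] (ℚ_[ℓ] ⊗[ℚ] W)) (x : ℚ_[ℓ] ⊗[ℚ] W), Continuous fun γ => f (ρ γ x))
  (hq : ∀ s u v, bcb ℚ_[ℓ] q₀ (ρ s u) (ρ s v) = bcb ℚ_[ℓ] q₀ u v)
  (hss : FiniteIndexSemisimple ρ)
  (h2 : ∀ φ : MultilinearMap ℚ_[ℓ] (fun _ : Fin 2 => ℚ_[ℓ] ⊗[ℚ] W) ℚ_[ℓ],
    IsTateForm ρ φ ↔ φ ∈ HodgeForms ℚ_[ℓ] H (Fin 2))

omit [TopologicalSpace Γ] [IsTopologicalGroup Γ] [CompactSpace Γ] [FiniteDimensional ℚ W] in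
include hq in
theorem form_tate_of {P : End ℚ_[ℓ] (ℚ_[ℓ] ⊗[ℚ] W) →ₗ[ℚ_[ℓ]] End ℚ_[ℓ] (ℚ_[ℓ] ⊗[ℚ] W)}
    (hPA : ∀ γ R, P (AdE (ρ γ) (ρ γ⁻¹) R) = AdE (ρ γ) (ρ γ⁻¹) (P R)) :
    IsTateForm ρ (pf (bcb ℚ_[ℓ] q₀) P) := by
  obtain ⟨Δ, hΔ, h⟩ := pf_tate (χ := (1 : Γ →* ℚ_[ℓ])) (bcb ℚ_[ℓ] q₀)
    (fun s u v => by rw [MonoidHom.one_apply, one_mul, hq]) hPA
  exact ⟨Δ, hΔ, fun s hs v => by rw [h s hs v, MonoidHom.one_apply, one_pow, one_mul]⟩

include hP hC hcont hq hss h2 in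
/-- if the Tate classes in four variables are Hodge classes, the Lie algebra of the Mumford-Tate group
is contained in the Lie algebra of the Galois group -/
theorem hodge_of_tate (h4 : ∀ φ : MultilinearMap ℚ_[ℓ] (fun _ : Fin 2 × Fin 2 => ℚ_[ℓ] ⊗[ℚ] W) ℚ_[ℓ],
      IsSymAlt φ → IsTateForm ρ φ → φ ∈ HodgeForms ℚ_[ℓ] H (Fin 2 × Fin 2))
    {κ : Type} [Fintype κ] [DecidableEq κ]
    {φ : MultilinearMap ℚ_[ℓ] (fun _ : κ => ℚ_[ℓ] ⊗[ℚ] W) ℚ_[ℓ]} (hφ : IsTateForm ρ φ) :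
    φ ∈ HodgeForms ℚ_[ℓ] H κ := by
  obtain ⟨L, hL, hLie, hAd, -⟩ := Y41.RM.lieL' ℚ_[ℓ] (ℚ_[ℓ] ⊗[ℚ] W) Γ ρ
  have hnd : NonDeg L := nonDeg_of_semisimple hss hL hLie hAd
  have hsp : ∀ Y ∈ L, ∀ x y, bcb ℚ_[ℓ] q₀ (Y x) y + bcb ℚ_[ℓ] q₀ x (Y y) = 0 := fun Y hY =>
    (der_bil2_iff Y _).1 (kills_tate ((hL Y).1 hY).2 (tate_q hq))
  have hc : pf (bcb ℚ_[ℓ] q₀) (oproj L hnd) ∈ HodgeForms ℚ_[ℓ] H (Fin 2 × Fin 2) :=
    h4 _ (pf_symAlt (bcb ℚ_[ℓ] q₀) (symm_bcb hP) hnd hsp) (form_tate_of hq fun γ R =>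
      oproj_AdE hnd (hAd γ) (fun Y hY => by
        have h1 := hAd γ⁻¹ Y hY
        rwa [inv_inv] at h1) R)
  obtain ⟨Δ, hΔ, hcΔ⟩ := exists_commuting ρ hcont (comm L) (comm_conj hAd) (comm_order hL)
  refine mem_of_killed hP.internal fun X hX => kills_tate ((hL X).1 ?_).2 hφ
  refine mem_of_kills_class hP hC hnd hLie hsp (fun Y hY P hPP => ?_) (fun Z hZ => ?_)
    (skew_of_mem hP hX) (fun P hPP => comm_endo hP hX hPP) (hX _ _ hc)
  · exact comm_of_kills hP (hsp Y hY) (kills_tate ((hL Y).1 hY).2 ((h2 _).2 (endo_mem hP hPP)))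
  · exact (h2 _).1 (tate_endo_form hq hΔ fun s hs => hcΔ s hs _ hZ)

include hP hC hcont hq hss h2 in
/-- if the Hodge classes in four variables are Tate classes, the Lie algebra of the Galois group
is contained in the Lie algebra of the Mumford-Tate group -/
theorem tate_of_hodge (hnd : NonDeg (LieHodge H ℚ_[ℓ]))
    (h4 : ∀ φ : MultilinearMap ℚ_[ℓ] (fun _ : Fin 2 × Fin 2 => ℚ_[ℓ] ⊗[ℚ] W) ℚ_[ℓ],
      IsSymAlt φ → φ ∈ HodgeForms ℚ_[ℓ] H (Fin 2 × Fin 2) → IsTateForm ρ φ)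
    {n : ℕ} {φ : MultilinearMap ℚ_[ℓ] (fun _ : Fin n => ℚ_[ℓ] ⊗[ℚ] W) ℚ_[ℓ]}
    (hφ : φ ∈ HodgeForms ℚ_[ℓ] H (Fin n)) : IsTateForm ρ φ := by
  have hsp : ∀ Y ∈ LieHodge H ℚ_[ℓ], ∀ x y, bcb ℚ_[ℓ] q₀ (Y x) y + bcb ℚ_[ℓ] q₀ x (Y y) = 0 :=
    fun Y hY => skew_of_mem hP hY
  have hc : pf (bcb ℚ_[ℓ] q₀) (oproj (LieHodge H ℚ_[ℓ]) hnd) ∈ HodgeForms ℚ_[ℓ] H (Fin 2 × Fin 2) :=
    mem_of_killed hP.internal fun X hX =>
      pf_killed (hsp X hX) fun R => oproj_bracket hnd lie_LH hX R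
  refine tate_of_killed hcont fun X hX v => ?_
  rw [← der_apply]
  have hXs : ∀ x y, bcb ℚ_[ℓ] q₀ (X x) y + bcb ℚ_[ℓ] q₀ x (X y) = 0 :=
    (der_bil2_iff X _).1 (kills_tate hX (tate_q hq))
  have h5 : X ∈ LieHodge H ℚ_[ℓ] := by
    refine mem_of_kills_class hP hC hnd lie_LH hsp (fun Y hY P hPP => comm_endo hP hY hPP)
      (fun Z hZ => mem_of_killed hP.internal fun Y hY => ?_) hXs (fun P hPP => ?_)
      (kills_tate hX (h4 _ (pf_symAlt (bcb ℚ_[ℓ] q₀) (symm_bcb hP) hnd hsp) hc))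
    · rw [der_bil2_iff]
      intro x y
      have h6 := LinearMap.congr_fun (hZ Y hY) x
      rw [Module.End.mul_apply, Module.End.mul_apply] at h6
      have h7 := hsp Y hY (Z x) y
      rw [h6] at h7
      exact h7
    · exact comm_of_kills hP hXs (kills_tate hX ((h2 _).2 (endo_mem hP hPP)))
  rw [h5 _ _ hφ, zero_apply]

end main

end Pool.Agent.W5h23.Wt
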