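import Mathlib

/-!
# Positive Hermitian forms and the trace
-/

set_option autoImplicit false

namespace Pool.Agent.W5h23.Wt

open Module

theorem eq_zero_of_adjoint {F : Type} [AddCommGroup F] [Module ℂ F] [FiniteDimensional ℂ F]
    (h : F → F → ℂ) (h1 : ∀ x y, (starRingEnd ℂ) (h y x) = h x y) (h2 : ∀ x, 0 ≤ (h x x).re)
    (h3 : ∀ x y z, h (x + y) z = h x z + h y z)
    (h4 : ∀ (x y : F) (r : ℂ), h (r • x) y = (starRingEnd ℂ) r * h x y)
    (h5 : ∀ x, h x x = 0 → x = 0) (X Xs : End ℂ F) (hadj : ∀ x y, h (X x) y = h x (Xs y))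
    (ht : LinearMap.trace ℂ F (Xs * X) = 0) : X = 0 := by
  let cd : InnerProductSpace.Core ℂ F :=
    { inner := h, conj_inner_symm := h1, re_inner_nonneg := h2, add_left := h3, smul_left := h4,
      definite := h5 }
  letI i1 : NormedAddCommGroup F := cd.toNormedAddCommGroup
  letI i2 : InnerProductSpace ℂ F := InnerProductSpace.ofCore cd.toCore
  let b := stdOrthonormalBasis ℂ F
  have h6 : LinearMap.trace ℂ F (Xs * X) = ∑ i, h (b i) (Xs (X (b i))) :=
    LinearMap.trace_eq_sum_inner (Xs * X) b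
  rw [ht] at h6
  have h7 : ∑ i, (h (X (b i)) (X (b i))).re = 0 := by
    rw [← Complex.re_sum, ← Complex.zero_re, h6]
    congr 1
    exact Finset.sum_congr rfl fun i _ => hadj _ _
  have h8 := (Finset.sum_eq_zero_iff_of_nonneg (fun i _ => h2 (X (b i)))).1 h7
  have h9 : ∀ i, X (b i) = 0 := by
    intro i
    refine h5 _ ?_
    have h10 : (h (X (b i)) (X (b i))).im = 0 := by
      have h11 := congrArg Complex.im (h1 (X (b i)) (X (b i)))
      rw [Complex.conj_im] at h11
      linarith
    exact Complex.ext (h8 i (Finset.mem_univ i)) h10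
  exact b.toBasis.ext fun i => by
    rw [OrthonormalBasis.coe_toBasis, h9, LinearMap.zero_apply]

end Pool.Agent.W5h23.Wt
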