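import Mathlib
import Pool.Agent.W5h23.Wt.Endo
import Pool.Agent.W5h23.Wt.Inner

/-!
# The trace form is nondegenerate on the Lie algebra of the Mumford-Tate group
-/

set_option autoImplicit false

namespace Pool.Agent.W5h23.Wt

open Module TensorProduct Pool.Agent.H204R3.GP Pool.Agent.H204R3.SP Pool.Agent.TH118.MT
  Pool.Agent.Y114.RM Pool.Agent.H50.FT Pool.Agent.R913.Adj Pool.Agent Pool.Agent.W5h23.Four

section conj

variable {W : Type} [AddCommGroup W] [Module ℚ W]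

theorem cc_tmul (a : ℂ) (w : W) : cc W (a ⊗ₜ[ℚ] w) = (starRingEnd ℂ a) ⊗ₜ[ℚ] w := rfl

theorem cc_smul (a : ℂ) (x : ℂ ⊗[ℚ] W) : cc W (a • x) = (starRingEnd ℂ a) • cc W x := by
  induction x with
  | zero => rw [smul_zero, map_zero, smul_zero]
  | add x y hx hy => rw [smul_add, map_add, map_add, smul_add, hx, hy]
  | tmul b w =>
    rw [TensorProduct.smul_tmul', cc_tmul, cc_tmul, TensorProduct.smul_tmul', smul_eq_mul,
      smul_eq_mul, map_mul]

theorem cc_cc (x : ℂ ⊗[ℚ] W) : cc W (cc W x) = x := by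
  induction x with
  | zero => rw [map_zero, map_zero]
  | add x y hx hy => rw [map_add, map_add, hx, hy]
  | tmul b w => rw [cc_tmul, cc_tmul, Complex.conj_conj]

theorem bcb_cc (q₀ : W →ₗ[ℚ] W →ₗ[ℚ] ℚ) (x y : ℂ ⊗[ℚ] W) :
    bcb ℂ q₀ (cc W x) (cc W y) = (starRingEnd ℂ) (bcb ℂ q₀ x y) := by
  induction x with
  | zero => simp only [map_zero, LinearMap.zero_apply]
  | add x x' hx hx' => simp only [map_add, LinearMap.add_apply, hx, hx']
  | tmul a x =>
    induction y with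
    | zero => simp only [map_zero]
    | add y y' hy hy' => simp only [map_add, hy, hy']
    | tmul b y =>
      rw [cc_tmul, cc_tmul, bcb_tmul, bcb_tmul, Algebra.smul_def, Algebra.smul_def, map_mul,
        map_mul, eq_ratCast]
      congr 1
      exact (map_ratCast (starRingEnd ℂ) _).symm

theorem prod_zpow_neg_one {κ : Type} (S : Finset κ) (f : κ → ℤ) :
    ∏ l ∈ S, (-1 : ℂ) ^ f l = (-1 : ℂ) ^ (∑ l ∈ S, f l) := by
  classical
  induction S using Finset.induction_on with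
  | empty => rw [Finset.prod_empty, Finset.sum_empty, zpow_zero]
  | insert a S ha ih =>
    rw [Finset.prod_insert ha, Finset.sum_insert ha, ih,
      zpow_add₀ (neg_ne_zero.2 (one_ne_zero : (1 : ℂ) ≠ 0))]

/-- the complex conjugate of an endomorphism -/
noncomputable def conjE (M : End ℂ (ℂ ⊗[ℚ] W)) : End ℂ (ℂ ⊗[ℚ] W) where
  toFun x := cc W (M (cc W x))
  map_add' x y := by rw [map_add, map_add, map_add]
  map_smul' c x := by rw [cc_smul, map_smul, cc_smul, Complex.conj_conj, RingHom.id_apply]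

theorem conjE_apply (M : End ℂ (ℂ ⊗[ℚ] W)) (x : ℂ ⊗[ℚ] W) : conjE M x = cc W (M (cc W x)) := rfl

/-- the complex conjugate of a multilinear form -/
noncomputable def conjM {κ : Type} (Ψ : MultilinearMap ℂ (fun _ : κ => ℂ ⊗[ℚ] W) ℂ) :
    MultilinearMap ℂ (fun _ : κ => ℂ ⊗[ℚ] W) ℂ where
  toFun x := (starRingEnd ℂ) (Ψ (fun l => cc W (x l)))
  map_update_add' := by
    intro inst x i a b
    have h1 : ∀ c, (fun l => cc W (Function.update x i c l)) =
        Function.update (fun l => cc W (x l)) i (cc W c) := by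
      intro c
      funext l
      by_cases hl : l = i
      · subst hl
        rw [Function.update_self, Function.update_self]
      · rw [Function.update_of_ne hl, Function.update_of_ne hl]
    rw [h1, h1, h1, map_add, MultilinearMap.map_update_add, map_add]
  map_update_smul' := by
    intro inst x i a b
    have h1 : ∀ c, (fun l => cc W (Function.update x i c l)) =
        Function.update (fun l => cc W (x l)) i (cc W c) := by
      intro c
      funext l
      by_cases hl : l = i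
      · subst hl
        rw [Function.update_self, Function.update_self]
      · rw [Function.update_of_ne hl, Function.update_of_ne hl]
    rw [h1, h1, cc_smul, MultilinearMap.map_update_smul, smul_eq_mul, map_mul, Complex.conj_conj,
      smul_eq_mul]

theorem conjM_apply {κ : Type} (Ψ : MultilinearMap ℂ (fun _ : κ => ℂ ⊗[ℚ] W) ℂ)
    (x : κ → ℂ ⊗[ℚ] W) : conjM Ψ x = (starRingEnd ℂ) (Ψ (fun l => cc W (x l))) := rfl

end conj

section pos

variable {W : Type} [AddCommGroup W] [Module ℚ W] [FiniteDimensional ℚ W]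
  {H : ℤ → Submodule ℂ (ℂ ⊗[ℚ] W)} {q₀ : W →ₗ[ℚ] W →ₗ[ℚ] ℚ} (hP : IsPolarisedHodge H q₀)

section ext

variable {κ : Type} [Fintype κ]

theorem form_ext {Ψ Ψ' : MultilinearMap ℂ (fun _ : κ => ℂ ⊗[ℚ] W) ℂ}
    (h : ∀ w : κ → W, Ψ (fun l => (1 : ℂ) ⊗ₜ[ℚ] w l) = Ψ' (fun l => (1 : ℂ) ⊗ₜ[ℚ] w l)) : Ψ = Ψ' := by
  refine Basis.ext_multilinear (fun _ => (finBasis ℚ W).baseChange ℂ) fun I => ?_
  simp only [Basis.baseChange_apply]
  exact h fun l => finBasis ℚ W (I l)

theorem conj_form {Ψ : MultilinearMap ℂ (fun _ : κ => ℂ ⊗[ℚ] W) ℂ}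
    {ψ : MultilinearMap ℚ (fun _ : κ => W) ℚ}
    (h : ∀ w : κ → W, Ψ (fun l => (1 : ℂ) ⊗ₜ[ℚ] w l) = ((ψ w : ℚ) : ℂ)) (x : κ → ℂ ⊗[ℚ] W) :
    Ψ (fun l => cc W (x l)) = (starRingEnd ℂ) (Ψ x) := by
  have h1 : conjM Ψ = Ψ := by
    refine form_ext fun w => ?_
    rw [conjM_apply]
    simp only [cc_tmul, map_one]
    rw [h, map_ratCast]
  have h2 := congrArg (fun F : MultilinearMap ℂ (fun _ : κ => ℂ ⊗[ℚ] W) ℂ => F x) h1
  rw [conjM_apply] at h2
  rw [← h2, Complex.conj_conj]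

variable [DecidableEq κ]

omit [FiniteDimensional ℚ W] in
theorem mem_LH_of_gen {k : Type} [Field k] [CharZero k] {X : End k (k ⊗[ℚ] W)}
    (h : ∀ (κ : Type) [Fintype κ] [DecidableEq κ] (ψ : MultilinearMap ℚ (fun _ : κ => W) ℚ)
      (φ : MultilinearMap k (fun _ : κ => k ⊗[ℚ] W) k), IsHodgeForm H ψ →
      (∀ w : κ → W, φ (fun l => (1 : k) ⊗ₜ[ℚ] w l) = ((ψ w : ℚ) : k)) → der X φ = 0) :
    X ∈ LieHodge H k := by
  intro κ _ _ φ hφ
  induction hφ using Submodule.span_induction with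
  | zero => exact der_zero_right _
  | add φ φ' _ _ h1 h2 => rw [der_add_right, h1, h2, add_zero]
  | smul c φ _ h1 => rw [der_smul_right, h1, smul_zero]
  | mem φ hφ =>
    obtain ⟨ψ, hψ, hc⟩ := hφ
    exact h κ ψ φ hψ hc

end ext

theorem conjE_mem {X : End ℂ (ℂ ⊗[ℚ] W)} (hX : X ∈ LieHodge H ℂ) : conjE X ∈ LieHodge H ℂ := by
  refine mem_LH_of_gen fun κ _ _ ψ φ hψ hφ => MultilinearMap.ext fun v => ?_
  have h1 := hX κ φ (Submodule.subset_span ⟨ψ, hψ, hφ⟩)
  have h2 := congrArg (fun F : MultilinearMap ℂ (fun _ : κ => ℂ ⊗[ℚ] W) ℂ =>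
    (starRingEnd ℂ) (F (fun l => cc W (v l)))) h1
  simp only [der_apply, zero_apply, map_zero, map_sum] at h2
  rw [der_apply, zero_apply, ← h2]
  refine Finset.sum_congr rfl fun l _ => ?_
  rw [← conj_form hφ]
  congr 1
  funext i
  by_cases hi : i = l
  · subst hi
    rw [Function.update_self, Function.update_self, conjE_apply]
  · rw [Function.update_of_ne hi, Function.update_of_ne hi, cc_cc]

include hP in
/-- the Weil operator -/
theorem weil_props : ∃ C : End ℂ (ℂ ⊗[ℚ] W), (∀ p, ∀ x ∈ H p, C x = (-1 : ℂ) ^ p • x) ∧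
    (∀ x, C (C x) = x) ∧ (∀ x, cc W (C x) = C (cc W x)) ∧
    (∀ x y, bcb ℂ q₀ (C x) y = bcb ℂ q₀ x (C y)) ∧
    ∀ (κ : Type) [Fintype κ] [DecidableEq κ] (ψ : MultilinearMap ℚ (fun _ : κ => W) ℚ)
      (φ : MultilinearMap ℂ (fun _ : κ => ℂ ⊗[ℚ] W) ℂ), IsHodgeForm H ψ →
      (∀ w : κ → W, φ (fun l => (1 : ℂ) ⊗ₜ[ℚ] w l) = ((ψ w : ℚ) : ℂ)) →
      ∀ x, φ (fun l => C (x l)) = φ x := by
  obtain ⟨ι, b, g, hb⟩ := exists_basis hP.internal
  have hC : ∀ p, ∀ x ∈ H p, dD hP.internal (fun p => (-1 : ℂ) ^ p) x = (-1 : ℂ) ^ p • x :=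
    fun p x hx => dD_apply hP.internal _ hx
  have hsq : ∀ p : ℤ, (-1 : ℂ) ^ p * (-1 : ℂ) ^ p = 1 := by
    intro p
    rw [← mul_zpow]
    norm_num
  have hng : ∀ p : ℤ, (-1 : ℂ) ^ (-p) = (-1 : ℂ) ^ p := by
    intro p
    rw [zpow_neg]
    exact inv_eq_of_mul_eq_one_left (hsq p)
  have hcj : ∀ p : ℤ, (starRingEnd ℂ) ((-1 : ℂ) ^ p) = (-1 : ℂ) ^ p := by
    intro p
    rw [map_zpow₀, map_neg, map_one]
  set C := dD hP.internal (fun p => (-1 : ℂ) ^ p) with hCdef
  have h2 : ∀ x, C (C x) = x := by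
    intro x
    have h3 : C * C = 1 := b.ext fun i => by
      rw [Module.End.mul_apply, hC _ _ (hb i), map_smul, hC _ _ (hb i), smul_smul, hsq, one_smul,
        Module.End.one_apply]
    exact LinearMap.congr_fun h3 x
  have h5 : ∀ (κ : Type) [Fintype κ] [DecidableEq κ] (ψ : MultilinearMap ℚ (fun _ : κ => W) ℚ)
      (φ : MultilinearMap ℂ (fun _ : κ => ℂ ⊗[ℚ] W) ℂ), IsHodgeForm H ψ →
      (∀ w : κ → W, φ (fun l => (1 : ℂ) ⊗ₜ[ℚ] w l) = ((ψ w : ℚ) : ℂ)) →
      ∀ x, φ (fun l => C (x l)) = φ x := by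
    intro κ _ _ ψ φ hψ hφ x
    obtain ⟨Ψ, h6, h7⟩ := hψ
    have h8 : φ = Ψ := form_ext fun w => by rw [hφ, h6]
    subst h8
    have h9 : φ.compLinearMap (fun _ => C) = φ := by
      refine Basis.ext_multilinear (fun _ => b) fun I => ?_
      rw [MultilinearMap.compLinearMap_apply]
      have h10 : ∀ l, C (b (I l)) = (-1 : ℂ) ^ g (I l) • b (I l) := fun l => hC _ _ (hb _)
      simp only [h10]
      rw [MultilinearMap.map_smul_univ]
      by_cases h11 : ∑ l, g (I l) = 0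
      · have h12 : ∏ l, (-1 : ℂ) ^ g (I l) = 1 := by
          rw [prod_zpow_neg_one, h11, zpow_zero]
        rw [h12, one_smul]
      · rw [h7 (fun l => g (I l)) _ (fun l => hb _) h11, smul_zero]
    exact congrArg (fun F : MultilinearMap ℂ (fun _ : κ => ℂ ⊗[ℚ] W) ℂ => F x) h9
  refine ⟨C, hC, h2, ?_, ?_, h5⟩
  · intro x
    have h3 : conjE C = C := b.ext fun i => by
      rw [conjE_apply, hC _ _ (hP.conj _ _ (hb i)), cc_smul, cc_cc, hng, hcj, hC _ _ (hb i)]
    have h4 := LinearMap.congr_fun h3 (cc W x)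
    rw [conjE_apply, cc_cc] at h4
    exact h4
  · intro x y
    have h6 := h5 _ _ (bil2 (bcb ℂ q₀)) (hodge_q hP) (fun w => by
      rw [bil2_apply, bil2_apply, bcb_one, eq_ratCast]) ![x, C y]
    rw [bil2_apply, bil2_apply] at h6
    change bcb ℂ q₀ (C x) (C (C y)) = bcb ℂ q₀ x (C y) at h6
    rw [h2] at h6
    exact h6

include hP in
/-- the adjoint for the positive Hermitian form, and the trace -/
theorem weil_trace : ∃ C : End ℂ (ℂ ⊗[ℚ] W), (∀ p, ∀ x ∈ H p, C x = (-1 : ℂ) ^ p • x) ∧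
    (∀ x, C (C x) = x) ∧
    (∀ (κ : Type) [Fintype κ] [DecidableEq κ] (ψ : MultilinearMap ℚ (fun _ : κ => W) ℚ)
      (φ : MultilinearMap ℂ (fun _ : κ => ℂ ⊗[ℚ] W) ℂ), IsHodgeForm H ψ →
      (∀ w : κ → W, φ (fun l => (1 : ℂ) ⊗ₜ[ℚ] w l) = ((ψ w : ℚ) : ℂ)) →
      ∀ x, φ (fun l => C (x l)) = φ x) ∧
    ∀ X : End ℂ (ℂ ⊗[ℚ] W),
      (∀ x y, bcb ℂ q₀ (conjE X x) y + bcb ℂ q₀ x (conjE X y) = 0) →
      LinearMap.trace ℂ _ (X * -(C * conjE X * C)) = 0 → X = 0 := by
  classical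
  obtain ⟨C, hC, hCC, hCc, hCq, hCH⟩ := weil_props hP
  refine ⟨C, hC, hCC, hCH, ?_⟩
  intro X hXs hT
  let Xs : End ℂ (ℂ ⊗[ℚ] W) := -(C * conjE X * C)
  let h : (ℂ ⊗[ℚ] W) → (ℂ ⊗[ℚ] W) → ℂ := fun x y => bcb ℂ q₀ (C y) (cc W x)
  have hh : ∀ x y, h x y = bcb ℂ q₀ (C y) (cc W x) := fun _ _ => rfl
  -- the decomposition
  have hdec : ∀ x : ℂ ⊗[ℚ] W, ∃ (S : Finset ℤ) (a : ℤ → ℂ ⊗[ℚ] W), (∀ p, a p ∈ H p) ∧
      x = ∑ p ∈ S, a p := by
    intro x
    obtain ⟨a, rfl⟩ := (dE hP.internal).surjective x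
    refine ⟨DFinsupp.support a, fun p => (a p : ℂ ⊗[ℚ] W), fun p => (a p).2, ?_⟩
    conv_lhs => rw [← DirectSum.sum_support_of a]
    rw [map_sum]
    refine Finset.sum_congr rfl fun p _ => ?_
    exact DirectSum.coeLinearMap_of H p (a p)
  have hxx : ∀ (S : Finset ℤ) (a : ℤ → ℂ ⊗[ℚ] W), (∀ p, a p ∈ H p) →
      h (∑ p ∈ S, a p) (∑ p ∈ S, a p) = ∑ p ∈ S, (-1 : ℂ) ^ p * bcb ℂ q₀ (a p) (cc W (a p)) := by
    intro S a ha
    rw [hh, map_sum, map_sum, map_sum, LinearMap.sum_apply]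
    refine Finset.sum_congr rfl fun p hp => ?_
    rw [map_sum, hC p _ (ha p), map_smul]
    simp only [LinearMap.smul_apply]
    rw [Finset.sum_eq_single p]
    · rw [smul_eq_mul]
    · intro p' _ hne
      have h0 : bcb ℂ q₀ (a p) (cc W (a p')) = 0 :=
        hP.orth p (-p') (fun h0 => hne (by linarith)) _ (ha p) _ (hP.conj p' _ (ha p'))
      rw [h0, smul_zero]
    · intro h0
      exact absurd hp h0
  have hre : ∀ (p : ℤ) (z : ℂ), ((-1 : ℂ) ^ p * z).re = (-1 : ℝ) ^ p * z.re := by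
    intro p z
    rcases Int.even_or_odd p with hp | hp
    · rw [hp.neg_one_zpow, hp.neg_one_zpow, one_mul, one_mul]
    · rw [hp.neg_one_zpow, hp.neg_one_zpow, neg_one_mul, neg_one_mul, Complex.neg_re]
  have hnn : ∀ (p : ℤ) (x : ℂ ⊗[ℚ] W), x ∈ H p → 0 ≤ (-1 : ℝ) ^ p * (bcb ℂ q₀ x (cc W x)).re := by
    intro p x hx
    by_cases h0 : x = 0
    · rw [h0, map_zero, map_zero, LinearMap.zero_apply, Complex.zero_re, mul_zero]
    · exact (hP.pos p x hx h0).le
  refine eq_zero_of_adjoint h ?_ ?_ ?_ ?_ ?_ X Xs ?_ ?_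
  · intro x y
    rw [hh, hh, ← bcb_cc, cc_cc, hCc, hCq, symm_bcb hP]
  · intro x
    obtain ⟨S, a, ha, rfl⟩ := hdec x
    rw [hxx S a ha, Complex.re_sum]
    refine Finset.sum_nonneg fun p _ => ?_
    rw [hre]
    exact hnn p _ (ha p)
  · intro x y z
    rw [hh, hh, hh, map_add, map_add]
  · intro x y r
    rw [hh, hh, cc_smul, map_smul, smul_eq_mul]
  · intro x hx
    obtain ⟨S, a, ha, rfl⟩ := hdec x
    rw [hxx S a ha] at hx
    have h1 := congrArg Complex.re hx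
    rw [Complex.re_sum, Complex.zero_re] at h1
    simp only [hre] at h1
    have h2 := (Finset.sum_eq_zero_iff_of_nonneg (fun p _ => hnn p _ (ha p))).1 h1
    refine Finset.sum_eq_zero fun p hp => ?_
    by_contra h0
    exact (hP.pos p _ (ha p) h0).ne' (h2 p hp)
  · intro x y
    rw [hh, hh]
    have h1 := hXs (C y) (cc W x)
    rw [conjE_apply (M := X) (x := cc W x), cc_cc] at h1
    have h2 : C (Xs y) = -(conjE X (C y)) := by
      change C (-(C (conjE X (C y)))) = _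
      rw [map_neg, hCC]
    rw [h2, map_neg, LinearMap.neg_apply]
    linear_combination h1
  · rw [LinearMap.trace_mul_comm]
    exact hT

include hP in
/-- the trace form is nondegenerate on the complexification of the Lie algebra of the Mumford-Tate
group -/
theorem nonDeg_complex : NonDeg (LieHodge H ℂ) := by
  classical
  obtain ⟨C, hC, hCC, hCH, hpos⟩ := weil_trace hP
  intro X hX hT
  -- conjugation by the Weil operator
  have hconj : ∀ M ∈ LieHodge H ℂ, C * M * C ∈ LieHodge H ℂ := by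
    intro M hM
    refine mem_LH_of_gen fun κ _ _ ψ φ hψ hφ => MultilinearMap.ext fun v => ?_
    have h1 := hM κ φ (Submodule.subset_span ⟨ψ, hψ, hφ⟩)
    have h2 := congrArg (fun F : MultilinearMap ℂ (fun _ : κ => ℂ ⊗[ℚ] W) ℂ =>
      F (fun l => C (v l))) h1
    simp only [der_apply, zero_apply] at h2
    rw [der_apply, zero_apply, ← h2]
    refine Finset.sum_congr rfl fun l _ => ?_
    rw [← hCH κ ψ φ hψ hφ]
    congr 1
    funext i
    by_cases hi : i = l
    · subst hi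
      rw [Function.update_self, Function.update_self, Module.End.mul_apply, Module.End.mul_apply,
        hCC]
    · rw [Function.update_of_ne hi, Function.update_of_ne hi]
  exact hpos X (skew_of_mem hP (conjE_mem hX))
    (hT _ ((LieHodge H ℂ).neg_mem (hconj _ (conjE_mem hX))))

include hP in
theorem nonDeg_rational : NonDeg (LQ H) := by
  intro X hX hT
  have h1 : X.baseChange ℂ = 0 := by
    refine nonDeg_complex hP _ (base_mem hX) fun Z hZ => ?_
    rw [← Module.forall_dual_apply_eq_zero_iff ℚ]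
    intro π
    rw [trace_coE, coE_base_mul]
    exact hT _ (coE_mem hZ π)
  refine LinearMap.ext fun w => ?_
  have h2 := LinearMap.congr_fun h1 ((1 : ℂ) ⊗ₜ[ℚ] w)
  rw [LinearMap.baseChange_tmul, LinearMap.zero_apply] at h2
  obtain ⟨π, hπ⟩ : ∃ π : ℂ →ₗ[ℚ] ℚ, π 1 ≠ 0 := by
    by_contra h3
    push Not at h3
    exact one_ne_zero ((Module.forall_dual_apply_eq_zero_iff ℚ (1 : ℂ)).1 h3)
  have h3 := congrArg (pr π) h2
  rw [pr_tmul, map_zero] at h3
  rw [LinearMap.zero_apply]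
  exact (smul_eq_zero.1 h3).resolve_left hπ

include hP in
/-- the trace form is nondegenerate on the Lie algebra of the Mumford-Tate group over `k` -/
theorem nonDeg_LH (k : Type) [Field k] [CharZero k] : NonDeg (LieHodge H k) := by
  intro X hX hT
  refine eq_zero_of_coE fun π => nonDeg_rational hP _ (coE_mem hX π) fun Y hY => ?_
  rw [← coE_mul_base, ← trace_coE, hT _ (base_mem hY), map_zero]

end pos

end Pool.Agent.W5h23.Wt
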