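import Mathlib
import Pool.Agent.W5h23.Wt.Main1
import Pool.Agent.W5h23.Wt.Pos

/-!
# The centre of the algebra of endomorphisms
-/

set_option autoImplicit false

namespace Pool.Agent.W5h23.Wt

open Module TensorProduct Pool.Agent.H204R3.GP Pool.Agent.H204R3.SP Pool.Agent.TH118.MT
  Pool.Agent.Y114.RM Pool.Agent.H50.FT Pool.Agent.R913.Adj Pool.Agent Pool.Agent.W5h23.Four


section two

variable {k V : Type} [Field k] [AddCommGroup V] [Module k V]

/-- a form in two variables as a bilinear form -/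
noncomputable def toB (ψ : MultilinearMap k (fun _ : Fin 2 => V) k) : V →ₗ[k] V →ₗ[k] k :=
  LinearMap.mk₂ k (fun x y => ψ ![x, y])
    (fun x x' y => by
      have h1 : ∀ z, ![z, y] = Function.update ![x, y] 0 z := fun z => by
        funext i; fin_cases i <;> simp
      rw [h1 (x + x'), MultilinearMap.map_update_add, ← h1, ← h1])
    (fun c x y => by
      have h1 : ∀ z, ![z, y] = Function.update ![x, y] 0 z := fun z => by
        funext i; fin_cases i <;> simp
      rw [h1 (c • x), MultilinearMap.map_update_smul, ← h1])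
    (fun x y y' => by
      have h1 : ∀ z, ![x, z] = Function.update ![x, y] 1 z := fun z => by
        funext i; fin_cases i <;> simp
      rw [h1 (y + y'), MultilinearMap.map_update_add, ← h1, ← h1])
    (fun c x y => by
      have h1 : ∀ z, ![x, z] = Function.update ![x, y] 1 z := fun z => by
        funext i; fin_cases i <;> simp
      rw [h1 (c • y), MultilinearMap.map_update_smul, ← h1])

theorem toB_apply (ψ : MultilinearMap k (fun _ : Fin 2 => V) k) (x y : V) :
    toB ψ x y = ψ ![x, y] := rfl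

theorem bil2_toB (ψ : MultilinearMap k (fun _ : Fin 2 => V) k) : bil2 (toB ψ) = ψ := by
  refine MultilinearMap.ext fun v => ?_
  rw [bil2_apply, toB_apply]
  congr 1
  funext i
  fin_cases i <;> rfl

end two

section hodge

variable {W : Type} [AddCommGroup W] [Module ℚ W] [FiniteDimensional ℚ W]
  {H : ℤ → Submodule ℂ (ℂ ⊗[ℚ] W)} {q₀ : W →ₗ[ℚ] W →ₗ[ℚ] ℚ} (hP : IsPolarisedHodge H q₀)
  {k : Type} [Field k] [CharZero k]

include hP in
theorem bil2_inj {Z Z' : End k (k ⊗[ℚ] W)}
    (h : bil2 (bcb k q₀ ∘ₗ Z) = bil2 (bcb k q₀ ∘ₗ Z')) : Z = Z' := by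
  refine LinearMap.ext fun x => ?_
  rw [← sub_eq_zero]
  refine nondeg_bcb hP _ fun y => ?_
  have h1 := congrArg (fun F : MultilinearMap k (fun _ : Fin 2 => k ⊗[ℚ] W) k => F ![x, y]) h
  rw [map_sub, LinearMap.sub_apply, sub_eq_zero]
  exact h1

include hP in
theorem mem_hodgeEndos {Z : End k (k ⊗[ℚ] W)} :
    Z ∈ HodgeEndos k H ↔ bil2 (bcb k q₀ ∘ₗ Z) ∈ HodgeForms k H (Fin 2) := by
  constructor
  · intro hZ
    induction hZ using Submodule.span_induction with
    | zero =>
      have h1 : bil2 (bcb k q₀ ∘ₗ (0 : End k (k ⊗[ℚ] W))) = 0 := MultilinearMap.ext fun v => by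
        rw [bil2_apply, LinearMap.comp_apply, LinearMap.zero_apply, map_zero,
          LinearMap.zero_apply, zero_apply]
      rw [h1]
      exact Submodule.zero_mem _
    | add Z Z' _ _ h1 h2 =>
      have h3 : bil2 (bcb k q₀ ∘ₗ (Z + Z')) = bil2 (bcb k q₀ ∘ₗ Z) + bil2 (bcb k q₀ ∘ₗ Z') :=
        MultilinearMap.ext fun v => by
          rw [add_apply, bil2_apply, bil2_apply, bil2_apply, LinearMap.comp_apply,
            LinearMap.comp_apply, LinearMap.comp_apply, LinearMap.add_apply, map_add,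
            LinearMap.add_apply]
      rw [h3]
      exact Submodule.add_mem _ h1 h2
    | smul c Z _ h1 =>
      have h3 : bil2 (bcb k q₀ ∘ₗ (c • Z)) = c • bil2 (bcb k q₀ ∘ₗ Z) :=
        MultilinearMap.ext fun v => by
          rw [smul_apply, bil2_apply, bil2_apply, LinearMap.comp_apply,
            LinearMap.comp_apply, LinearMap.smul_apply, map_smul, LinearMap.smul_apply]
      rw [h3]
      exact Submodule.smul_mem _ _ h1
    | mem P' hP' =>
      obtain ⟨P, h1, rfl⟩ := hP'
      have h2 : bil2 (bcb k q₀ ∘ₗ P.baseChange k) = bil2 (bcb k (q₀ ∘ₗ P)) :=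
        MultilinearMap.ext fun v => by
          rw [bil2_apply, bil2_apply, bcb_comp, LinearMap.comp_apply]
      rw [h2]
      exact endo_mem hP h1
  · intro h
    suffices h1 : ∀ φ ∈ HodgeForms k H (Fin 2), ∃ Z' ∈ HodgeEndos k H,
        bil2 (bcb k q₀ ∘ₗ Z') = φ by
      obtain ⟨Z', h2, h3⟩ := h1 _ h
      rwa [← bil2_inj hP h3]
    intro φ hφ
    induction hφ using Submodule.span_induction with
    | zero =>
      refine ⟨0, Submodule.zero_mem _, MultilinearMap.ext fun v => ?_⟩
      rw [bil2_apply, LinearMap.comp_apply, LinearMap.zero_apply, map_zero,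
          LinearMap.zero_apply, zero_apply]
    | add φ φ' _ _ h1 h2 =>
      obtain ⟨Z, h3, h4⟩ := h1
      obtain ⟨Z', h5, h6⟩ := h2
      refine ⟨Z + Z', Submodule.add_mem _ h3 h5, ?_⟩
      rw [← h4, ← h6]
      refine MultilinearMap.ext fun v => ?_
      rw [add_apply, bil2_apply, bil2_apply, bil2_apply, LinearMap.comp_apply,
        LinearMap.comp_apply, LinearMap.comp_apply, LinearMap.add_apply, map_add,
        LinearMap.add_apply]
    | smul c φ _ h1 =>
      obtain ⟨Z, h3, h4⟩ := h1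
      refine ⟨c • Z, Submodule.smul_mem _ _ h3, ?_⟩
      rw [← h4]
      refine MultilinearMap.ext fun v => ?_
      rw [smul_apply, bil2_apply, bil2_apply, LinearMap.comp_apply,
        LinearMap.comp_apply, LinearMap.smul_apply, map_smul, LinearMap.smul_apply]
    | mem φ hφ =>
      obtain ⟨ψ, hψ, hc⟩ := hφ
      let P : W →ₗ[ℚ] W := (toD q₀ (nondeg_left hP)).symm.toLinearMap ∘ₗ (toB ψ : W →ₗ[ℚ] Dual ℚ W)
      have h1 : ∀ x y, q₀ (P x) y = ψ ![x, y] := fun x y => toD_symm q₀ (nondeg_left hP) (toB ψ x) y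
      have h2 : bil2 (q₀ ∘ₗ P) = ψ := by
        rw [← bil2_toB ψ]
        exact MultilinearMap.ext fun v => h1 _ _
      refine ⟨P.baseChange k, Submodule.subset_span ⟨P, endo_of_form hP (by rwa [h2]), rfl⟩, ?_⟩
      refine Basis.ext_multilinear (fun _ => (finBasis ℚ W).baseChange k) fun I => ?_
      simp only [Basis.baseChange_apply]
      rw [hc (fun l => finBasis ℚ W (I l)), bil2_apply]
      change bcb k q₀ (P.baseChange k ((1 : k) ⊗ₜ[ℚ] _)) _ = _
      rw [LinearMap.baseChange_tmul, bcb_one, eq_ratCast, ← h2]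
      rfl

include hP in
theorem mem_skewCentre {Z : End k (k ⊗[ℚ] W)}
    (h1 : bil2 (bcb k q₀ ∘ₗ Z) ∈ HodgeForms k H (Fin 2))
    (h2 : ∀ P : W →ₗ[ℚ] W, IsHodgeEndo H P → Z * P.baseChange k = P.baseChange k * Z)
    (h3 : ∀ x y, bcb k q₀ (Z x) y + bcb k q₀ x (Z y) = 0) :
    Z ∈ SkewCentre (bcb k q₀) (HodgeEndos k H) := by
  refine ⟨(mem_hodgeEndos hP).2 h1, fun Q hQ => ?_, h3⟩
  induction hQ using Submodule.span_induction with
  | zero => rw [mul_zero, zero_mul]
  | add Q Q' _ _ h4 h5 => rw [mul_add, add_mul, h4, h5]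
  | smul c Q _ h4 => rw [mul_smul_comm, smul_mul_assoc, h4]
  | mem Q hQ =>
    obtain ⟨P, h4, rfl⟩ := hQ
    exact h2 P h4

include hP in
/-- if the adjoint involution is trivial on the centre, there are no skew elements in the centre -/
theorem skewCentre_zero (hC : AdjointTrivialOnCentre H q₀) {Z : End k (k ⊗[ℚ] W)}
    (hZ : Z ∈ SkewCentre (bcb k q₀) (HodgeEndos k H)) : Z = 0 :=
  zero_of_central hP hC hZ.2.2 ((mem_hodgeEndos hP).1 hZ.1) fun P hPP =>
    hZ.2.1 _ (Submodule.subset_span ⟨P, hPP, rfl⟩)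

end hodge

section tate

variable {k V Γ : Type} [Field k] [AddCommGroup V] [Module k V] [Group Γ]
  {ρ : Representation k Γ V} {q : V →ₗ[k] V →ₗ[k] k} (hl : ∀ u, (∀ v, q u v = 0) → u = 0)
  (hq : ∀ s u v, q (ρ s u) (ρ s v) = q u v)

include hl hq in
theorem tateEndo_iff {Z : End k V} : IsTateForm ρ (bil2 (q ∘ₗ Z)) ↔ Z ∈ TateEndos ρ := by
  constructor
  · rintro ⟨Δ, hΔ, h⟩
    refine ⟨Δ, hΔ, fun s hs => LinearMap.ext fun x => ?_⟩
    rw [← sub_eq_zero]
    refine hl _ fun y => ?_
    have him : ρ s (ρ s⁻¹ y) = y := by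
      rw [← Module.End.mul_apply, ← map_mul, mul_inv_cancel, map_one, Module.End.one_apply]
    have h1 := h s hs ![x, ρ s⁻¹ y]
    change q (Z (ρ s x)) (ρ s (ρ s⁻¹ y)) = q (Z x) (ρ s⁻¹ y) at h1
    have h2 := hq s (Z x) (ρ s⁻¹ y)
    rw [him] at h1 h2
    rw [map_sub, LinearMap.sub_apply, Module.End.mul_apply, Module.End.mul_apply, h1, h2, sub_self]
  · rintro ⟨Δ, hΔ, h⟩
    exact tate_endo_form hq hΔ h

include hl in
/-- a skew endomorphism which kills the form of `Z` commutes with `Z` -/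
theorem comm_of_kills' {X Z : End k V} (hX : ∀ x y, q (X x) y + q x (X y) = 0)
    (h : der X (bil2 (q ∘ₗ Z)) = 0) : X * Z = Z * X := by
  rw [der_bil2_iff] at h
  refine LinearMap.ext fun x => ?_
  rw [← sub_eq_zero]
  refine hl _ fun y => ?_
  rw [map_sub, LinearMap.sub_apply, Module.End.mul_apply, Module.End.mul_apply]
  have h1 := h x y
  have h2 := hX (Z x) y
  rw [LinearMap.comp_apply, LinearMap.comp_apply] at h1
  linear_combination h2 - h1

/-- a skew endomorphism which commutes with `Z` kills the form of `Z` -/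
theorem kills_of_comm' {X Z : End k V} (hX : ∀ x y, q (X x) y + q x (X y) = 0)
    (h : X * Z = Z * X) : der X (bil2 (q ∘ₗ Z)) = 0 := by
  rw [der_bil2_iff]
  intro x y
  have h1 := LinearMap.congr_fun h x
  rw [Module.End.mul_apply, Module.End.mul_apply] at h1
  rw [LinearMap.comp_apply, LinearMap.comp_apply, ← h1]
  exact hX _ _

end tate

section orth

variable {k : Type} [Field k] {V : Type} [AddCommGroup V] [Module k V] [FiniteDimensional k V]
  {L : Submodule k (End k V)}

/-- the orthogonal projection and an element which commutes with `L` -/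
theorem oproj_central (hnd : NonDeg L) {Z : End k V} (hZ : ∀ Y ∈ L, Y * Z = Z * Y) (R : End k V) :
    oproj L hnd (Z * R - R * Z) = Z * oproj L hnd R - oproj L hnd R * Z := by
  have h1 : Z * R - R * Z ∈ (trf k V).orthogonal L := by
    rw [LinearMap.BilinForm.mem_orthogonal_iff]
    intro Y hY
    change LinearMap.trace k V (Y * (Z * R - R * Z)) = 0
    rw [mul_sub, map_sub, ← mul_assoc, ← mul_assoc, LinearMap.trace_mul_comm k (Y * R) Z,
      ← mul_assoc, hZ Y hY, sub_self]
  rw [oproj_perp hnd h1, hZ _ (oproj_mem hnd R), sub_self]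

end orth

end Pool.Agent.W5h23.Wt
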