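import Mathlib
import Pool.Agent.W5h23.Wt.Centre

/-!
# The trace form on the skew part of the centre
-/

set_option autoImplicit false

namespace Pool.Agent.W5h23.Wt

open Module TensorProduct Pool.Agent.H204R3.GP Pool.Agent.H204R3.SP Pool.Agent.TH118.MT
  Pool.Agent.Y114.RM Pool.Agent.H50.FT Pool.Agent.R913.Adj Pool.Agent Pool.Agent.W5h23.Four

section transfer

variable {W : Type} [AddCommGroup W] [Module ℚ W] [FiniteDimensional ℚ W]

theorem coE_base {K : Type} [Field K] [CharZero K] (X : W →ₗ[ℚ] W) (π : K →ₗ[ℚ] ℚ) :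
    coE (X.baseChange K) π = π 1 • X := by
  refine LinearMap.ext fun w => ?_
  rw [coE_apply, LinearMap.baseChange_tmul, pr_tmul, LinearMap.smul_apply]

theorem coE_sub {K : Type} [Field K] [CharZero K] (X Y : End K (K ⊗[ℚ] W)) (π : K →ₗ[ℚ] ℚ) :
    coE (X - Y) π = coE X π - coE Y π := by
  refine LinearMap.ext fun w => ?_
  rw [LinearMap.sub_apply, coE_apply, coE_apply, coE_apply, LinearMap.sub_apply, map_sub]

theorem coE_neg {K : Type} [Field K] [CharZero K] (X : End K (K ⊗[ℚ] W)) (π : K →ₗ[ℚ] ℚ) :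
    coE (-X) π = -coE X π := by
  refine LinearMap.ext fun w => ?_
  rw [LinearMap.neg_apply, coE_apply, coE_apply, LinearMap.neg_apply, map_neg]

theorem coE_conjE (X : End ℂ (ℂ ⊗[ℚ] W)) (π : ℂ →ₗ[ℚ] ℚ) :
    coE (conjE X) π = coE X (π ∘ₗ Complex.conjAe.toLinearMap.restrictScalars ℚ) := by
  refine LinearMap.ext fun w => ?_
  rw [coE_apply, coE_apply, conjE_apply, cc_tmul, map_one]
  generalize X ((1 : ℂ) ⊗ₜ[ℚ] w) = t
  induction t with
  | zero => simp only [map_zero]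
  | add s t hs ht => simp only [map_add, hs, ht]
  | tmul r w => rw [cc_tmul, pr_tmul, pr_tmul]; rfl

/-- the transfer of the nondegeneracy of the trace form -/
theorem nondeg_transfer (S : Submodule ℚ (End ℚ W))
    (hS : ∀ X : End ℂ (ℂ ⊗[ℚ] W), (∀ π, coE X π ∈ S) →
      (∀ Y : End ℂ (ℂ ⊗[ℚ] W), (∀ π, coE Y π ∈ S) → LinearMap.trace ℂ _ (X * Y) = 0) → X = 0)
    {k : Type} [Field k] [CharZero k] (X : End k (k ⊗[ℚ] W)) (hX : ∀ π, coE X π ∈ S)
    (hT : ∀ Y : End k (k ⊗[ℚ] W), (∀ π, coE Y π ∈ S) → LinearMap.trace k _ (X * Y) = 0) :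
    X = 0 := by
  have hQ : ∀ X ∈ S, (∀ Y ∈ S, LinearMap.trace ℚ W (X * Y) = 0) → X = 0 := by
    intro X hX hT
    have h1 : X.baseChange ℂ = 0 := by
      refine hS _ (fun π => by rw [coE_base]; exact S.smul_mem _ hX) fun Z hZ => ?_
      rw [← Module.forall_dual_apply_eq_zero_iff ℚ]
      intro π
      rw [trace_coE, coE_base_mul]
      exact hT _ (hZ π)
    refine LinearMap.ext fun w => ?_
    have h2 := LinearMap.congr_fun h1 ((1 : ℂ) ⊗ₜ[ℚ] w)
    rw [LinearMap.baseChange_tmul, LinearMap.zero_apply] at h2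
    obtain ⟨π, hπ⟩ : ∃ π : ℂ →ₗ[ℚ] ℚ, π 1 ≠ 0 := by
      by_contra h3
      push Not at h3
      exact one_ne_zero ((Module.forall_dual_apply_eq_zero_iff ℚ (1 : ℂ)).1 h3)
    have h3 := congrArg (pr π) h2
    rw [pr_tmul, map_zero] at h3
    rw [LinearMap.zero_apply]
    exact (smul_eq_zero.1 h3).resolve_left hπ
  refine eq_zero_of_coE fun π => hQ _ (hX π) fun Y hY => ?_
  rw [← coE_mul_base, ← trace_coE, hT _ (fun π' => by rw [coE_base]; exact S.smul_mem _ hY),
    map_zero]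

end transfer

section centre

variable {W : Type} [AddCommGroup W] [Module ℚ W] [FiniteDimensional ℚ W]
  {H : ℤ → Submodule ℂ (ℂ ⊗[ℚ] W)} {q₀ : W →ₗ[ℚ] W →ₗ[ℚ] ℚ} (hP : IsPolarisedHodge H q₀)

/-- the skew elements of the centre of the algebra of endomorphisms of the Hodge structure -/
def SQ (H : ℤ → Submodule ℂ (ℂ ⊗[ℚ] W)) (q₀ : W →ₗ[ℚ] W →ₗ[ℚ] ℚ) : Submodule ℚ (End ℚ W) where
  carrier := {P | IsHodgeEndo H P ∧ (∀ Q : W →ₗ[ℚ] W, IsHodgeEndo H Q → P * Q = Q * P) ∧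
    ∀ x y, q₀ (P x) y + q₀ x (P y) = 0}
  zero_mem' := by
    refine ⟨fun p x _ => ?_, fun Q _ => by rw [zero_mul, mul_zero], fun x y => by simp⟩
    rw [LinearMap.baseChange_zero, LinearMap.zero_apply]
    exact Submodule.zero_mem _
  add_mem' := by
    rintro P P' ⟨h1, h2, h3⟩ ⟨h1', h2', h3'⟩
    refine ⟨fun p x hx => ?_, fun Q hQ => by rw [add_mul, mul_add, h2 Q hQ, h2' Q hQ],
      fun x y => ?_⟩
    · rw [LinearMap.baseChange_add, LinearMap.add_apply]
      exact Submodule.add_mem _ (h1 p x hx) (h1' p x hx)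
    · have h4 := h3 x y
      have h5 := h3' x y
      simp only [LinearMap.add_apply, map_add]
      linear_combination h4 + h5
  smul_mem' := by
    rintro c P ⟨h1, h2, h3⟩
    refine ⟨fun p x hx => ?_, fun Q hQ => by rw [smul_mul_assoc, mul_smul_comm, h2 Q hQ],
      fun x y => ?_⟩
    · rw [LinearMap.baseChange_smul, LinearMap.smul_apply, ← algebraMap_smul ℂ c]
      exact Submodule.smul_mem _ _ (h1 p x hx)
    · have h4 := h3 x y
      simp only [LinearMap.smul_apply, map_smul, smul_eq_mul]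
      linear_combination c * h4

theorem mem_SQ {P : End ℚ W} : P ∈ SQ H q₀ ↔ IsHodgeEndo H P ∧
    (∀ Q : W →ₗ[ℚ] W, IsHodgeEndo H Q → P * Q = Q * P) ∧
    ∀ x y, q₀ (P x) y + q₀ x (P y) = 0 := Iff.rfl

include hP in
theorem skewCentre_iff {k : Type} [Field k] [CharZero k] {Z : End k (k ⊗[ℚ] W)} :
    Z ∈ SkewCentre (bcb k q₀) (HodgeEndos k H) ↔ ∀ π, coE Z π ∈ SQ H q₀ := by
  constructor
  · rintro ⟨h1, h2, h3⟩ π
    refine mem_SQ.2 ⟨coE_endo hP ((mem_hodgeEndos hP).1 h1) π, fun Q hQ => ?_, fun x y => ?_⟩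
    · rw [← coE_mul_base, ← coE_base_mul, h2 _ (Submodule.subset_span ⟨Q, hQ, rfl⟩)]
    · have h4 := congrArg π (h3 ((1 : k) ⊗ₜ[ℚ] x) ((1 : k) ⊗ₜ[ℚ] y))
      rw [map_add, pr_bil_left, pr_bil_right, map_zero, ← coE_apply, ← coE_apply] at h4
      exact h4
  · intro h
    refine mem_skewCentre hP (mem_of_coord _ fun π ψ hψ => ?_) (fun P hPP => ?_) ?_
    · have h1 : ψ = bil2 (q₀ ∘ₗ coE Z π) := MultilinearMap.ext fun w => by
        rw [hψ, bil2_apply, bil2_apply]
        change π (bcb k q₀ (Z ((1 : k) ⊗ₜ[ℚ] w 0)) ((1 : k) ⊗ₜ[ℚ] w 1)) = q₀ (coE Z π (w 0)) (w 1)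
        rw [pr_bil_left, coE_apply]
      rw [h1]
      exact hodge_endo_form hP (mem_SQ.1 (h π)).1
    · have h1 : Z * P.baseChange k - P.baseChange k * Z = 0 := eq_zero_of_coE fun π => by
        rw [coE_sub, coE_mul_base, coE_base_mul, (mem_SQ.1 (h π)).2.1 P hPP, sub_self]
      exact sub_eq_zero.1 h1
    · rw [← der_bil2_iff]
      refine Basis.ext_multilinear (fun _ => (finBasis ℚ W).baseChange k) fun I => ?_
      simp only [Basis.baseChange_apply]
      rw [der_bil2, zero_apply, ← Module.forall_dual_apply_eq_zero_iff ℚ]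
      intro π
      rw [map_add, pr_bil_left, pr_bil_right, ← coE_apply, ← coE_apply]
      exact (mem_SQ.1 (h π)).2.2 _ _

theorem mem_LH_iff {k : Type} [Field k] [CharZero k] {X : End k (k ⊗[ℚ] W)} :
    X ∈ LieHodge H k ↔ ∀ π, coE X π ∈ LQ H := by
  refine ⟨fun h π => coE_mem h π, fun h => mem_LH_of_gen fun κ _ _ ψ φ hψ hφ => ?_⟩
  refine Basis.ext_multilinear (fun _ => (finBasis ℚ W).baseChange k) fun I => ?_
  simp only [Basis.baseChange_apply]
  rw [zero_apply, ← Module.forall_dual_apply_eq_zero_iff ℚ]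
  intro π
  rw [der_coE X π φ ψ hφ (fun l => finBasis ℚ W (I l)), h π κ ψ hψ, zero_apply]

include hP in
/-- the Weil operator commutes with the skew elements of the centre, and positivity -/
theorem centre_complex (S : Submodule ℚ (End ℚ W)) (hS : S ≤ SQ H q₀) :
    ∀ X : End ℂ (ℂ ⊗[ℚ] W), (∀ π, coE X π ∈ S) →
      (∀ Y : End ℂ (ℂ ⊗[ℚ] W), (∀ π, coE Y π ∈ S) → LinearMap.trace ℂ _ (X * Y) = 0) → X = 0 := by
  intro X hX hT
  obtain ⟨C, hC, hCC, -, hpos⟩ := weil_trace hP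
  have h1 : ∀ π, coE (conjE X) π ∈ S := fun π => by
    rw [coE_conjE]
    exact hX _
  have h2 : conjE X ∈ SkewCentre (bcb ℂ q₀) (HodgeEndos ℂ H) :=
    (skewCentre_iff hP).2 fun π => hS (h1 π)
  have h3 : ∀ Z ∈ HodgeEndos ℂ H, C * Z = Z * C := by
    intro Z hZ
    induction hZ using Submodule.span_induction with
    | zero => rw [mul_zero, zero_mul]
    | add Q Q' _ _ h4 h5 => rw [mul_add, add_mul, h4, h5]
    | smul c Q _ h4 => rw [mul_smul_comm, smul_mul_assoc, h4]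
    | mem Q hQ =>
      obtain ⟨P, h4, rfl⟩ := hQ
      obtain ⟨ι, b, g, hb⟩ := exists_basis hP.internal
      refine b.ext fun i => ?_
      rw [Module.End.mul_apply, Module.End.mul_apply, hC _ _ (hb i), hC _ _ (h4 _ _ (hb i)),
        map_smul]
  refine hpos X h2.2.2 ?_
  have hCC' : C * C = 1 := LinearMap.ext fun x => hCC x
  rw [h3 _ h2.1, mul_assoc, hCC', mul_one]
  exact hT _ fun π => by
    rw [coE_neg]
    exact S.neg_mem (h1 π)

include hP in
/-- the trace form is nondegenerate on the skew part of the centre -/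
theorem centre_nondeg {k : Type} [Field k] [CharZero k] {Z : End k (k ⊗[ℚ] W)}
    (hZ : Z ∈ SkewCentre (bcb k q₀) (HodgeEndos k H))
    (hT : ∀ z ∈ SkewCentre (bcb k q₀) (HodgeEndos k H), LinearMap.trace k _ (Z * z) = 0) :
    Z = 0 :=
  nondeg_transfer (SQ H q₀) (centre_complex hP _ le_rfl) Z ((skewCentre_iff hP).1 hZ)
    fun Y hY => hT Y ((skewCentre_iff hP).2 hY)

include hP in
/-- the trace form is nondegenerate on the intersection of the skew part of the centre and the Lie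
algebra of the Mumford-Tate group -/
theorem centre_nondeg' {k : Type} [Field k] [CharZero k] {Z : End k (k ⊗[ℚ] W)}
    (hZ : Z ∈ SkewCentre (bcb k q₀) (HodgeEndos k H)) (hZ' : Z ∈ LieHodge H k)
    (hT : ∀ z ∈ SkewCentre (bcb k q₀) (HodgeEndos k H), z ∈ LieHodge H k →
      LinearMap.trace k _ (Z * z) = 0) : Z = 0 :=
  nondeg_transfer (SQ H q₀ ⊓ LQ H) (centre_complex hP _ inf_le_left) Z
    (fun π => ⟨(skewCentre_iff hP).1 hZ π, mem_LH_iff.1 hZ' π⟩)
    fun Y hY => hT Y ((skewCentre_iff hP).2 fun π => (hY π).1) (mem_LH_iff.2 fun π => (hY π).2)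

theorem skewCentre_sub {k : Type} [Field k] [CharZero k] {Z Z' : End k (k ⊗[ℚ] W)}
    (h : Z ∈ SkewCentre (bcb k q₀) (HodgeEndos k H))
    (h' : Z' ∈ SkewCentre (bcb k q₀) (HodgeEndos k H)) :
    Z - Z' ∈ SkewCentre (bcb k q₀) (HodgeEndos k H) := by
  have h0 : Z - Z' ∈ HodgeEndos k H := by
    have e : Z - Z' = Z + (-1 : k) • Z' := LinearMap.ext fun x => by
      rw [LinearMap.sub_apply, LinearMap.add_apply, LinearMap.smul_apply, neg_smul, one_smul,
        sub_eq_add_neg]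
    rw [e]
    exact Submodule.add_mem _ h.1 (Submodule.smul_mem _ _ h'.1)
  refine ⟨h0, fun Q hQ => ?_, fun x y => ?_⟩
  · have e1 : (Z - Z') * Q = Z * Q - Z' * Q := LinearMap.ext fun _ => rfl
    have e2 : Q * (Z - Z') = Q * Z - Q * Z' := LinearMap.ext fun x => map_sub Q (Z x) (Z' x)
    rw [e1, e2, h.2.1 Q hQ, h'.2.1 Q hQ]
  · have h1 := h.2.2 x y
    have h2 := h'.2.2 x y
    rw [LinearMap.sub_apply, LinearMap.sub_apply, map_sub, map_sub, LinearMap.sub_apply]
    linear_combination h1 - h2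

end centre

section abstract

variable {k V : Type} [Field k] [AddCommGroup V] [Module k V] [FiniteDimensional k V]

theorem trace_oproj {L : Submodule k (End k V)} (hnd : NonDeg L) (R : End k V) {Y : End k V}
    (hY : Y ∈ L) : LinearMap.trace k V (Y * oproj L hnd R) = LinearMap.trace k V (Y * R) := by
  have h1 : LinearMap.trace k V (Y * (R - oproj L hnd R)) = 0 :=
    (LinearMap.BilinForm.mem_orthogonal_iff.1 (sub_oproj hnd R)) Y hY
  rw [mul_sub, map_sub, sub_eq_zero] at h1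
  exact h1.symm

/-- two Lie algebras with the same intersection with `S` are equal -/
theorem two_algebras {L₁ L₂ : Submodule k (End k V)} (h1 : NonDeg L₁) (h2 : NonDeg L₂)
    {S : Set (End k V)} (hsub : ∀ z ∈ S, ∀ z' ∈ S, z - z' ∈ S)
    (hp1 : ∀ z ∈ S, oproj L₁ h1 z ∈ S) (hp2 : ∀ z ∈ S, oproj L₂ h2 z ∈ S)
    (hN : ∀ Z ∈ S, (∀ z ∈ S, LinearMap.trace k V (Z * z) = 0) → Z = 0)
    (hN' : ∀ Z ∈ S, Z ∈ L₁ → (∀ z ∈ S, z ∈ L₁ → LinearMap.trace k V (Z * z) = 0) → Z = 0)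
    (hc : ∀ z ∈ S, z ∈ L₁ ↔ z ∈ L₂) {X : End k V} (hX : X ∈ L₂)
    (hZ : X - oproj L₁ h1 X ∈ S) : X ∈ L₁ := by
  have h3 : ∀ z ∈ S, oproj L₁ h1 z = oproj L₂ h2 z := by
    intro z hz
    have h4 : oproj L₂ h2 z ∈ L₁ := (hc _ (hp2 z hz)).2 (oproj_mem h2 z)
    have h5 : oproj L₁ h1 z - oproj L₂ h2 z = 0 := by
      refine hN' _ (hsub _ (hp1 z hz) _ (hp2 z hz)) (L₁.sub_mem (oproj_mem h1 z) h4)
        fun w hw hw1 => ?_
      have hw2 : w ∈ L₂ := (hc w hw).1 hw1
      rw [LinearMap.trace_mul_comm, mul_sub, map_sub, trace_oproj h1 z hw1, trace_oproj h2 z hw2,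
        sub_self]
    exact sub_eq_zero.1 h5
  have h6 : X - oproj L₁ h1 X = 0 := by
    refine hN _ hZ fun z hz => ?_
    have e1 : LinearMap.trace k V (X * z) = LinearMap.trace k V (X * oproj L₂ h2 z) :=
      (trace_oproj h2 z hX).symm
    have e2 : LinearMap.trace k V (oproj L₁ h1 X * z) =
        LinearMap.trace k V (X * oproj L₁ h1 z) := by
      rw [← trace_oproj h1 z (oproj_mem h1 X), LinearMap.trace_mul_comm,
        trace_oproj h1 X (oproj_mem h1 z), LinearMap.trace_mul_comm]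
    rw [sub_mul, map_sub, e1, e2, h3 z hz, sub_self]
  rw [sub_eq_zero.1 h6]
  exact oproj_mem h1 X

end abstract

end Pool.Agent.W5h23.Wt
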