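import Mathlib
import Pool.Agent.W5h23.Wt.Pos2

/-!
# Hodge classes and Tate classes in four variables
-/

set_option autoImplicit false

namespace Pool.Agent.W5h23.Wt

open Module TensorProduct Pool.Agent.H204R3.GP Pool.Agent.H204R3.SP Pool.Agent.TH118.MT
  Pool.Agent.Y114.RM Pool.Agent.H50.FT Pool.Agent.R913.Adj Pool.Agent Pool.Agent.W5h23.Four

section general

variable {k V : Type} [Field k] [AddCommGroup V] [Module k V] {κ : Type} [Fintype κ]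
  [DecidableEq κ]

theorem killedBy_iff {S : Set (End k V)} {φ : MultilinearMap k (fun _ : κ => V) k} :
    KilledBy S φ ↔ ∀ Z ∈ S, der Z φ = 0 :=
  forall₂_congr fun Z _ => (kills_iff Z φ).symm

variable [FiniteDimensional k V] {q : V →ₗ[k] V →ₗ[k] k} (hl : ∀ u, (∀ v, q u v = 0) → u = 0)

include hl in
theorem exists_endo (φ : MultilinearMap k (fun _ : Fin 2 => V) k) :
    ∃ Q : End k V, bil2 (q ∘ₗ Q) = φ := by
  refine ⟨(toD q hl).symm.toLinearMap ∘ₗ (toB φ : V →ₗ[k] Dual k V), ?_⟩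
  rw [← bil2_toB φ]
  exact MultilinearMap.ext fun v => toD_symm q hl (toB φ (v 0)) (v 1)

include hl in
/-- forms in two variables are killed by the skew part of the centre -/
theorem killedBy_two {A : Set (End k V)} {φ : MultilinearMap k (fun _ : Fin 2 => V) k}
    (hφ : ∀ Q : End k V, bil2 (q ∘ₗ Q) = φ → Q ∈ A) : KilledBy (SkewCentre q A) φ := by
  rw [killedBy_iff]
  intro Z hZ
  obtain ⟨Q, hQ⟩ := exists_endo hl φ
  rw [← hQ]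
  exact kills_of_comm' hZ.2.2 (hZ.2.1 Q (hφ Q hQ))

variable {Γ : Type} [Group Γ] {ρ : Representation k Γ V} (hq : ∀ s u v, q (ρ s u) (ρ s v) = q u v)

include hl hq in
/-- a skew endomorphism which kills the Tate forms kills the Tate tensors -/
theorem kills_mixed' {Y : End k V} (hY : ∀ x y, q (Y x) y + q x (Y y) = 0)
    (hk : ∀ (κ : Type) [Fintype κ] [DecidableEq κ] (φ : MultilinearMap k (fun _ : κ => V) k),
      IsTateForm ρ φ → der Y φ = 0) {n : ℕ} {Φ : Tensor k V n} (hΦ : TateTensor ρ Φ) :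
    KillsTensor Y Φ := by
  classical
  suffices h3 : Four.der (lie Y) Φ = 0 from (kills_iff (lie Y) Φ).1 h3
  have hω : ∀ s u v, q (ρ s u) (ρ s v) = (1 : Γ →* k) s * q u v := fun s u v => by
    rw [MonoidHom.one_apply, one_mul, hq]
  let b := finBasis k V
  let B := b.prod (b.map (toD q hl))
  refine Basis.ext_multilinear (fun _ => B) fun I => ?_
  let S : Finset (Fin n) := Finset.univ.filter fun l => (I l).isLeft
  let x : Fin n → V := fun l => b (Sum.elim id id (I l))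
  have hx : (fun l => B (I l)) = fun l => incS q hl S l (x l) := by
    funext l
    simp only [incS, S, x, Finset.mem_filter, Finset.mem_univ, true_and, B]
    rcases hI : I l with i | i
    · simp [Basis.prod_apply]
    · simp [Basis.prod_apply]
  have hT : IsTateForm ρ (Φ.compLinearMap (incS q hl S)) := by
    obtain ⟨Δ, hΔ, h⟩ := hΦ
    refine ⟨Δ, hΔ, fun γ hγ v => ?_⟩
    have h1 := h γ hγ (fun l => incS q hl S l (v l))
    simp only [incS_grp q hl hω, MonoidHom.one_apply, inv_one, ite_self, one_smul] at h1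
    exact h1
  have h1 := (kills_iff Y _).1 (hk _ _ hT) x
  rw [hx, der_apply, zero_apply, ← h1]
  refine Finset.sum_congr rfl fun l _ => ?_
  rw [incS_lie q hl hY, MultilinearMap.compLinearMap_apply]
  congr 1
  funext i
  by_cases hi : i = l
  · subst hi
    rw [Function.update_self, Function.update_self]
  · rw [Function.update_of_ne hi, Function.update_of_ne hi]

end general

section main

variable {ℓ : ℕ} [Fact ℓ.Prime] {W : Type} [AddCommGroup W] [Module ℚ W]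
  [FiniteDimensional ℚ W] {H : ℤ → Submodule ℂ (ℂ ⊗[ℚ] W)} {q₀ : W →ₗ[ℚ] W →ₗ[ℚ] ℚ}
  (hP : IsPolarisedHodge H q₀)
  {Γ : Type} [Group Γ] [TopologicalSpace Γ] [IsTopologicalGroup Γ] [CompactSpace Γ]
  {ρ : Representation ℚ_[ℓ] Γ (ℚ_[ℓ] ⊗[ℚ] W)}
  (hcont : ∀ (f : Dual ℚ_[ℓ] (ℚ_[ℓ] ⊗[ℚ] W)) (x : ℚ_[ℓ] ⊗[ℚ] W), Continuous fun γ => f (ρ γ x))
  (hq : ∀ s u v, bcb ℚ_[ℓ] q₀ (ρ s u) (ρ s v) = bcb ℚ_[ℓ] q₀ u v)

include hcont in
/-- forms killed by the Lie algebra of the Tate tensors are Tate forms -/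
theorem tate_of_killed' {κ : Type} [Fintype κ] [DecidableEq κ]
    {φ : MultilinearMap ℚ_[ℓ] (fun _ : κ => ℚ_[ℓ] ⊗[ℚ] W) ℚ_[ℓ]}
    (h : ∀ X : End ℚ_[ℓ] (ℚ_[ℓ] ⊗[ℚ] W), (∀ (m : ℕ) (Φ : Tensor ℚ_[ℓ] (ℚ_[ℓ] ⊗[ℚ] W) m),
      TateTensor ρ Φ → KillsTensor X Φ) → der X φ = 0) : IsTateForm ρ φ := by
  let e : κ ≃ Fin (Fintype.card κ) := Fintype.equivFin κ
  obtain ⟨Δ, hΔ, h1⟩ := tate_of_killed (φ := MultilinearMap.domDomCongr e φ) hcont fun X hX v => by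
    rw [← der_apply, der_dom, h X hX, MultilinearMap.domDomCongr_apply, zero_apply]
  refine ⟨Δ, hΔ, fun s hs v => ?_⟩
  have h2 := h1 s hs (fun j => v (e.symm j))
  rw [MultilinearMap.domDomCongr_apply, MultilinearMap.domDomCongr_apply] at h2
  simp only [Equiv.symm_apply_apply] at h2
  exact h2

/-- the elements of the Lie algebra of the Mumford-Tate group commute with the endomorphisms -/
theorem centre_comm {k : Type} [Field k] [CharZero k] (hP : IsPolarisedHodge H q₀)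
    {Z : End k (k ⊗[ℚ] W)} (hZ : Z ∈ HodgeEndos k H) : ∀ Y ∈ LieHodge H k, Y * Z = Z * Y := fun Y hY =>
  comm_of_kills' (nondeg_bcb hP) (skew_of_mem hP hY) (hY _ _ ((mem_hodgeEndos hP).1 hZ))

/-- the class of the projection to the Lie algebra of the Mumford-Tate group -/
theorem class_hodge {k : Type} [Field k] [CharZero k] (hP : IsPolarisedHodge H q₀) :
    pf (bcb k q₀) (oproj (LieHodge H k) (nonDeg_LH hP k)) ∈ HodgeForms k H (Fin 2 × Fin 2) ∧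
      KilledBy (SkewCentre (bcb k q₀) (HodgeEndos k H))
        (pf (bcb k q₀) (oproj (LieHodge H k) (nonDeg_LH hP k))) ∧
      IsSymAlt (pf (bcb k q₀) (oproj (LieHodge H k) (nonDeg_LH hP k))) :=
  ⟨mem_of_killed hP.internal fun _ hX =>
      pf_killed (skew_of_mem hP hX) fun R => oproj_bracket (nonDeg_LH hP k) lie_LH hX R,
    killedBy_iff.2 fun _ hZ => pf_killed hZ.2.2 fun R =>
      oproj_central (nonDeg_LH hP k) (centre_comm hP hZ.1) R,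
    pf_symAlt (bcb k q₀) (symm_bcb hP) (nonDeg_LH hP k) fun _ hY => skew_of_mem hP hY⟩

include hP hq in
omit [TopologicalSpace Γ] [IsTopologicalGroup Γ] [CompactSpace Γ] in
theorem part_hodge
    (h2 : ∀ φ : MultilinearMap ℚ_[ℓ] (fun _ : Fin 2 => ℚ_[ℓ] ⊗[ℚ] W) ℚ_[ℓ],
      φ ∈ HodgeForms ℚ_[ℓ] H (Fin 2) → IsTateForm ρ φ)
    (h4 : IsTateForm ρ (pf (bcb ℚ_[ℓ] q₀) (oproj (LieHodge H ℚ_[ℓ]) (nonDeg_LH hP ℚ_[ℓ]))))
    {X : End ℚ_[ℓ] (ℚ_[ℓ] ⊗[ℚ] W)} (hX : ∀ (m : ℕ) (Φ : Tensor ℚ_[ℓ] (ℚ_[ℓ] ⊗[ℚ] W) m),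
      TateTensor ρ Φ → KillsTensor X Φ) :
    X - oproj (LieHodge H ℚ_[ℓ]) (nonDeg_LH hP ℚ_[ℓ]) X ∈
      SkewCentre (bcb ℚ_[ℓ] q₀) (HodgeEndos ℚ_[ℓ] H) := by
  have hnd : NonDeg (LieHodge H ℚ_[ℓ]) := nonDeg_LH hP ℚ_[ℓ]
  have hl := nondeg_bcb (K := ℚ_[ℓ]) hP
  have hsp : ∀ Y ∈ LieHodge H ℚ_[ℓ], ∀ x y, bcb ℚ_[ℓ] q₀ (Y x) y + bcb ℚ_[ℓ] q₀ x (Y y) = 0 :=
    fun Y hY => skew_of_mem hP hY
  have hXs : ∀ x y, bcb ℚ_[ℓ] q₀ (X x) y + bcb ℚ_[ℓ] q₀ x (X y) = 0 :=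
    (der_bil2_iff X _).1 (kills_tate hX (tate_q hq))
  have hkc : der X (pf (bcb ℚ_[ℓ] q₀) (oproj (LieHodge H ℚ_[ℓ]) hnd)) = 0 := kills_tate hX h4
  have hid : ∀ Y ∈ LieHodge H ℚ_[ℓ], X * Y - Y * X ∈ LieHodge H ℚ_[ℓ] := by
    intro Y hY
    have h1 := pf_comm (bcb ℚ_[ℓ] q₀) hl (μ := 0) (fun x y => by rw [hXs, zero_mul])
      (fun v => by rw [mul_zero, zero_mul]; exact (kills_iff X _).1 hkc v) Y
    rw [oproj_of_mem hnd hY] at h1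
    rw [← h1]
    exact oproj_mem hnd _
  have hZ : ∀ Y ∈ LieHodge H ℚ_[ℓ], Y * (X - oproj (LieHodge H ℚ_[ℓ]) hnd X) =
      (X - oproj (LieHodge H ℚ_[ℓ]) hnd X) * Y := fun Y hY => sub_oproj_comm hnd lie_LH hid hY
  refine mem_skewCentre hP (mem_of_killed hP.internal fun Y hY =>
    kills_of_comm' (hsp Y hY) (hZ Y hY)) (fun P hPP => ?_) (fun x y => ?_)
  · have e1 : (X - oproj (LieHodge H ℚ_[ℓ]) hnd X) * P.baseChange ℚ_[ℓ] =
        X * P.baseChange ℚ_[ℓ] - oproj (LieHodge H ℚ_[ℓ]) hnd X * P.baseChange ℚ_[ℓ] :=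
      LinearMap.ext fun _ => rfl
    have e2 : P.baseChange ℚ_[ℓ] * (X - oproj (LieHodge H ℚ_[ℓ]) hnd X) =
        P.baseChange ℚ_[ℓ] * X - P.baseChange ℚ_[ℓ] * oproj (LieHodge H ℚ_[ℓ]) hnd X :=
      LinearMap.ext fun x => map_sub (P.baseChange ℚ_[ℓ]) (X x) (oproj (LieHodge H ℚ_[ℓ]) hnd X x)
    rw [e1, e2, comm_of_kills hP hXs (kills_tate hX (h2 _ (endo_mem hP hPP))),
      comm_endo hP (oproj_mem hnd X) hPP]
  · have h5 := hXs x y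
    have h6 := hsp _ (oproj_mem hnd X) x y
    rw [LinearMap.sub_apply, LinearMap.sub_apply, map_sub, map_sub, LinearMap.sub_apply]
    linear_combination h5 - h6

include hcont hq in
/-- **Hodge classes are Tate classes.**  If the Hodge classes in two variables and the class of the
projection are Tate classes then all Hodge classes are Tate classes (up to the centre). -/
theorem tate_of_hodge_gen
    (h2 : ∀ φ : MultilinearMap ℚ_[ℓ] (fun _ : Fin 2 => ℚ_[ℓ] ⊗[ℚ] W) ℚ_[ℓ],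
      φ ∈ HodgeForms ℚ_[ℓ] H (Fin 2) → IsTateForm ρ φ)
    (h4 : IsTateForm ρ (pf (bcb ℚ_[ℓ] q₀) (oproj (LieHodge H ℚ_[ℓ]) (nonDeg_LH hP ℚ_[ℓ]))))
    {κ : Type} [Fintype κ] [DecidableEq κ]
    {φ : MultilinearMap ℚ_[ℓ] (fun _ : κ => ℚ_[ℓ] ⊗[ℚ] W) ℚ_[ℓ]}
    (hk : KilledBy (SkewCentre (bcb ℚ_[ℓ] q₀) (HodgeEndos ℚ_[ℓ] H)) φ)
    (hφ : φ ∈ HodgeForms ℚ_[ℓ] H κ) : IsTateForm ρ φ := by
  refine tate_of_killed' hcont fun X hX => ?_
  have hZs := part_hodge hP hq h2 h4 hX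
  have h7 := der_add_left (X - oproj (LieHodge H ℚ_[ℓ]) (nonDeg_LH hP ℚ_[ℓ]) X)
    (oproj (LieHodge H ℚ_[ℓ]) (nonDeg_LH hP ℚ_[ℓ]) X) φ
  rw [sub_add_cancel, killedBy_iff.1 hk _ hZs,
    (oproj_mem (nonDeg_LH hP ℚ_[ℓ]) X : _ ∈ LieHodge H ℚ_[ℓ]) _ _ hφ, add_zero] at h7
  exact h7

/-- The endomorphisms which kill all Tate classes: if the representation is semisimple, this is the
Lie algebra of the Zariski closure of the image of `ρ`. -/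
def LieTate {k V Γ : Type} [Field k] [AddCommGroup V] [Module k V] [Group Γ]
    (ρ : Representation k Γ V) : Submodule k (End k V) where
  carrier := {X | ∀ (κ : Type) [Fintype κ] [DecidableEq κ]
    (φ : MultilinearMap k (fun _ : κ => V) k), IsTateForm ρ φ → der X φ = 0}
  zero_mem' := fun κ _ _ ψ _ => der_zero_left ψ
  add_mem' := fun {a b} ha hb κ _ _ ψ hψ => by
    rw [der_add_left, ha κ ψ hψ, hb κ ψ hψ, add_zero]
  smul_mem' := fun c a ha κ _ _ ψ hψ => by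
    rw [der_smul_left, ha κ ψ hψ, smul_zero]

theorem mem_lieTate {k V Γ : Type} [Field k] [AddCommGroup V] [Module k V] [Group Γ]
    {ρ : Representation k Γ V} {X : End k V} : X ∈ LieTate ρ ↔
      ∀ (κ : Type) [Fintype κ] [DecidableEq κ]
        (φ : MultilinearMap k (fun _ : κ => V) k), IsTateForm ρ φ → der X φ = 0 := Iff.rfl

include hP hq in
omit [TopologicalSpace Γ] [IsTopologicalGroup Γ] [CompactSpace Γ] in
theorem mem_lieTate_iff {X : End ℚ_[ℓ] (ℚ_[ℓ] ⊗[ℚ] W)} : X ∈ LieTate ρ ↔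
    ∀ (m : ℕ) (Φ : Tensor ℚ_[ℓ] (ℚ_[ℓ] ⊗[ℚ] W) m), TateTensor ρ Φ → KillsTensor X Φ :=
  ⟨fun h _ _ hΦ => kills_mixed' (nondeg_bcb hP) hq
      ((der_bil2_iff X _).1 (h _ _ (tate_q hq))) h hΦ,
    fun h _ _ _ _ hφ => kills_tate h hφ⟩

include hP hcont hq in
/-- the Lie algebra of the Galois group -/
theorem lieTate_props (hss : FiniteIndexSemisimple ρ) :
    ∃ hnd : NonDeg (LieTate ρ), IsLie (LieTate ρ) ∧
      (∀ Y ∈ LieTate ρ, ∀ x y, bcb ℚ_[ℓ] q₀ (Y x) y + bcb ℚ_[ℓ] q₀ x (Y y) = 0) ∧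
      (∀ Z, Z ∈ TateEndos ρ ↔ ∀ Y ∈ LieTate ρ, Y * Z = Z * Y) ∧
      IsTateForm ρ (pf (bcb ℚ_[ℓ] q₀) (oproj (LieTate ρ) hnd)) := by
  obtain ⟨L, hL, hLie, hAd, -⟩ := Y41.RM.lieL' ℚ_[ℓ] (ℚ_[ℓ] ⊗[ℚ] W) Γ ρ
  have hLL : L = LieTate ρ := by
    ext X
    rw [mem_lieTate_iff hP hq]
    exact ⟨fun h => ((hL X).1 h).2, fun h => (hL X).2 (mem_LT_of_semisimple ρ hss h)⟩
  subst hLL
  have hnd : NonDeg (LieTate ρ) := nonDeg_of_semisimple hss hL hLie hAd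
  have hl := nondeg_bcb (K := ℚ_[ℓ]) hP
  have hsp : ∀ Y ∈ LieTate ρ, ∀ x y, bcb ℚ_[ℓ] q₀ (Y x) y + bcb ℚ_[ℓ] q₀ x (Y y) = 0 :=
    fun Y hY => (der_bil2_iff Y _).1 (hY _ _ (tate_q hq))
  obtain ⟨Δ, hΔ, hcΔ⟩ := exists_commuting ρ hcont (comm (LieTate ρ)) (comm_conj hAd)
    (comm_order hL)
  exact ⟨hnd, hLie, hsp, fun Z => ⟨fun hZ Y hY =>
    comm_of_kills' hl (hsp Y hY) (hY _ _ ((tateEndo_iff hl hq).2 hZ)),
    fun hZ => ⟨Δ, hΔ, fun s hs => hcΔ s hs _ hZ⟩⟩, form_tate_of hq fun γ R =>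
      oproj_AdE hnd (hAd γ) (fun Y hY => by
        have h1 := hAd γ⁻¹ Y hY
        rwa [inv_inv] at h1) R⟩

omit [TopologicalSpace Γ] [IsTopologicalGroup Γ] [CompactSpace Γ] in
include hP hq in
theorem part_tate
    (h2 : ∀ φ : MultilinearMap ℚ_[ℓ] (fun _ : Fin 2 => ℚ_[ℓ] ⊗[ℚ] W) ℚ_[ℓ],
      IsTateForm ρ φ → φ ∈ HodgeForms ℚ_[ℓ] H (Fin 2))
    {L : Submodule ℚ_[ℓ] (End ℚ_[ℓ] (ℚ_[ℓ] ⊗[ℚ] W))} (hnd : NonDeg L) (hLie : IsLie L)
    (hsp : ∀ Y ∈ L, ∀ x y, bcb ℚ_[ℓ] q₀ (Y x) y + bcb ℚ_[ℓ] q₀ x (Y y) = 0)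
    (hcen : ∀ Z, Z ∈ TateEndos ρ ↔ ∀ Y ∈ L, Y * Z = Z * Y)
    (hc : pf (bcb ℚ_[ℓ] q₀) (oproj L hnd) ∈ HodgeForms ℚ_[ℓ] H (Fin 2 × Fin 2))
    {X : End ℚ_[ℓ] (ℚ_[ℓ] ⊗[ℚ] W)} (hX : X ∈ LieHodge H ℚ_[ℓ]) :
    X - oproj L hnd X ∈ SkewCentre (bcb ℚ_[ℓ] q₀) (TateEndos ρ) := by
  have hl := nondeg_bcb (K := ℚ_[ℓ]) hP
  have hXs := skew_of_mem hP hX
  have hid : ∀ Y ∈ L, X * Y - Y * X ∈ L := by
    intro Y hY
    have h1 := pf_comm (bcb ℚ_[ℓ] q₀) hl (μ := 0) (fun x y => by rw [hXs, zero_mul])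
      (fun v => by rw [mul_zero, zero_mul]; exact (kills_iff X _).1 (hX _ _ hc) v) Y
    rw [oproj_of_mem hnd hY] at h1
    rw [← h1]
    exact oproj_mem hnd _
  have hZ : ∀ Y ∈ L, Y * (X - oproj L hnd X) = (X - oproj L hnd X) * Y := fun Y hY =>
    sub_oproj_comm hnd hLie hid hY
  refine ⟨(hcen _).2 hZ, fun Q hQ => ?_, fun x y => ?_⟩
  · have e1 : (X - oproj L hnd X) * Q = X * Q - oproj L hnd X * Q := LinearMap.ext fun _ => rfl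
    have e2 : Q * (X - oproj L hnd X) = Q * X - Q * oproj L hnd X :=
      LinearMap.ext fun x => map_sub Q (X x) (oproj L hnd X x)
    rw [e1, e2, (hcen Q).1 hQ _ (oproj_mem hnd X),
      comm_of_kills' hl hXs (hX _ _ (h2 _ ((tateEndo_iff hl hq).2 hQ)))]
  · have h5 := hXs x y
    have h6 := hsp _ (oproj_mem hnd X) x y
    rw [LinearMap.sub_apply, LinearMap.sub_apply, map_sub, map_sub, LinearMap.sub_apply]
    linear_combination h5 - h6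

omit [TopologicalSpace Γ] [IsTopologicalGroup Γ] [CompactSpace Γ] in
include hP hq in
/-- **Tate classes are Hodge classes.**  If the Tate classes in two variables and the class of the
projection are Hodge classes then all Tate classes are Hodge classes (up to the centre). -/
theorem hodge_of_tate_gen
    (h2 : ∀ φ : MultilinearMap ℚ_[ℓ] (fun _ : Fin 2 => ℚ_[ℓ] ⊗[ℚ] W) ℚ_[ℓ],
      IsTateForm ρ φ → φ ∈ HodgeForms ℚ_[ℓ] H (Fin 2))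
    (hnd : NonDeg (LieTate ρ)) (hLie : IsLie (LieTate ρ))
    (hsp : ∀ Y ∈ LieTate ρ, ∀ x y, bcb ℚ_[ℓ] q₀ (Y x) y + bcb ℚ_[ℓ] q₀ x (Y y) = 0)
    (hcen : ∀ Z, Z ∈ TateEndos ρ ↔ ∀ Y ∈ LieTate ρ, Y * Z = Z * Y)
    (hc : pf (bcb ℚ_[ℓ] q₀) (oproj (LieTate ρ) hnd) ∈ HodgeForms ℚ_[ℓ] H (Fin 2 × Fin 2))
    {κ : Type} [Fintype κ] [DecidableEq κ]
    {φ : MultilinearMap ℚ_[ℓ] (fun _ : κ => ℚ_[ℓ] ⊗[ℚ] W) ℚ_[ℓ]}
    (hk : KilledBy (SkewCentre (bcb ℚ_[ℓ] q₀) (TateEndos ρ)) φ)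
    (hφ : IsTateForm ρ φ) : φ ∈ HodgeForms ℚ_[ℓ] H κ := by
  refine mem_of_killed hP.internal fun X hX => ?_
  have hZs := part_tate hP hq h2 hnd hLie hsp hcen hc hX
  have h7 := der_add_left (X - oproj (LieTate ρ) hnd X) (oproj (LieTate ρ) hnd X) φ
  rw [sub_add_cancel, killedBy_iff.1 hk _ hZs,
    (oproj_mem hnd X : _ ∈ LieTate ρ) κ φ hφ, add_zero] at h7
  exact h7

include hP hq in
omit [TopologicalSpace Γ] [IsTopologicalGroup Γ] [CompactSpace Γ] in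
/-- if the Tate classes in two variables are the Hodge classes, the two algebras of endomorphisms are
equal -/
theorem endos_eq (h2 : ∀ φ : MultilinearMap ℚ_[ℓ] (fun _ : Fin 2 => ℚ_[ℓ] ⊗[ℚ] W) ℚ_[ℓ],
      IsTateForm ρ φ ↔ φ ∈ HodgeForms ℚ_[ℓ] H (Fin 2)) :
    TateEndos ρ = (HodgeEndos ℚ_[ℓ] H : Set (End ℚ_[ℓ] (ℚ_[ℓ] ⊗[ℚ] W))) := by
  ext Z
  rw [← tateEndo_iff (nondeg_bcb hP) hq, h2, SetLike.mem_coe, mem_hodgeEndos hP]

include hcont in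
/-- if the two Lie algebras are equal, the Tate classes are the Hodge classes -/
theorem tate_iff_of_eq (hP : IsPolarisedHodge H q₀)
    (hq : ∀ s u v, bcb ℚ_[ℓ] q₀ (ρ s u) (ρ s v) = bcb ℚ_[ℓ] q₀ u v)
    (h : LieTate ρ = LieHodge H ℚ_[ℓ]) {κ : Type} [Fintype κ] [DecidableEq κ]
    (φ : MultilinearMap ℚ_[ℓ] (fun _ : κ => ℚ_[ℓ] ⊗[ℚ] W) ℚ_[ℓ]) :
    IsTateForm ρ φ ↔ φ ∈ HodgeForms ℚ_[ℓ] H κ := by
  constructor
  · intro hφ
    refine mem_of_killed hP.internal fun X hX => ?_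
    rw [← h] at hX
    exact hX _ _ hφ
  · intro hφ
    refine tate_of_killed' hcont fun X hX => ?_
    have h1 : X ∈ LieTate ρ := (mem_lieTate_iff hP hq).2 hX
    rw [h] at h1
    exact h1 _ _ hφ

omit [TopologicalSpace Γ] [IsTopologicalGroup Γ] [CompactSpace Γ] in
include hq in
/-- **The Mumford-Tate conjecture, the classes in four variables, and the centre.** -/
theorem lieTate_eq
    (h2 : ∀ φ : MultilinearMap ℚ_[ℓ] (fun _ : Fin 2 => ℚ_[ℓ] ⊗[ℚ] W) ℚ_[ℓ],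
      IsTateForm ρ φ ↔ φ ∈ HodgeForms ℚ_[ℓ] H (Fin 2))
    (hnd : NonDeg (LieTate ρ)) (hLie : IsLie (LieTate ρ))
    (hsp : ∀ Y ∈ LieTate ρ, ∀ x y, bcb ℚ_[ℓ] q₀ (Y x) y + bcb ℚ_[ℓ] q₀ x (Y y) = 0)
    (hcen : ∀ Z, Z ∈ TateEndos ρ ↔ ∀ Y ∈ LieTate ρ, Y * Z = Z * Y)
    (hcH : IsTateForm ρ (pf (bcb ℚ_[ℓ] q₀) (oproj (LieHodge H ℚ_[ℓ]) (nonDeg_LH hP ℚ_[ℓ]))))
    (hcT : pf (bcb ℚ_[ℓ] q₀) (oproj (LieTate ρ) hnd) ∈ HodgeForms ℚ_[ℓ] H (Fin 2 × Fin 2))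
    (hc : ∀ Z ∈ SkewCentre (bcb ℚ_[ℓ] q₀) (HodgeEndos ℚ_[ℓ] H),
      Z ∈ LieTate ρ ↔ Z ∈ LieHodge H ℚ_[ℓ]) : LieTate ρ = LieHodge H ℚ_[ℓ] := by
  have hE := endos_eq hP hq h2
  have hnd2 : NonDeg (LieHodge H ℚ_[ℓ]) := nonDeg_LH hP ℚ_[ℓ]
  set S := SkewCentre (bcb ℚ_[ℓ] q₀) (HodgeEndos ℚ_[ℓ] H) with hS
  -- the projections of central elements
  have hp1 : ∀ z ∈ S, oproj (LieTate ρ) hnd z ∈ S := by
    intro z hz
    have hz' : z ∈ TateEndos ρ := by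
      rw [hE]
      exact hz.1
    have h5 : ∀ Y ∈ LieTate ρ, Y * oproj (LieTate ρ) hnd z = oproj (LieTate ρ) hnd z * Y := by
      intro Y hY
      have h6 := oproj_bracket hnd hLie hY z
      rw [(hcen z).1 hz' Y hY, sub_self, map_zero] at h6
      exact (sub_eq_zero.1 h6.symm)
    have h7 : oproj (LieTate ρ) hnd z ∈ TateEndos ρ := (hcen _).2 h5
    refine ⟨by rw [← hE]; exact h7, fun Q hQ => ?_, hsp _ (oproj_mem hnd z)⟩
    rw [← hE] at hQ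
    exact (hcen Q).1 hQ _ (oproj_mem hnd z)
  have hp2 : ∀ z ∈ S, oproj (LieHodge H ℚ_[ℓ]) hnd2 z ∈ S := by
    intro z hz
    have h5 : ∀ Y ∈ LieHodge H ℚ_[ℓ], Y * oproj (LieHodge H ℚ_[ℓ]) hnd2 z =
        oproj (LieHodge H ℚ_[ℓ]) hnd2 z * Y := by
      intro Y hY
      have h6 := oproj_bracket hnd2 lie_LH hY z
      rw [centre_comm hP hz.1 Y hY, sub_self, map_zero] at h6
      exact (sub_eq_zero.1 h6.symm)
    exact mem_skewCentre hP (mem_of_killed hP.internal fun Y hY =>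
      kills_of_comm' (skew_of_mem hP hY) (h5 Y hY)) (fun P hPP =>
        comm_endo hP (oproj_mem hnd2 z) hPP) (skew_of_mem hP (oproj_mem hnd2 z))
  have hN : ∀ Z ∈ S, (∀ z ∈ S, LinearMap.trace ℚ_[ℓ] _ (Z * z) = 0) → Z = 0 :=
    fun Z hZ h => centre_nondeg hP hZ h
  have hN2 : ∀ Z ∈ S, Z ∈ LieHodge H ℚ_[ℓ] → (∀ z ∈ S, z ∈ LieHodge H ℚ_[ℓ] →
      LinearMap.trace ℚ_[ℓ] _ (Z * z) = 0) → Z = 0 :=
    fun Z hZ hZ' h => centre_nondeg' hP hZ hZ' h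
  have hN1 : ∀ Z ∈ S, Z ∈ LieTate ρ → (∀ z ∈ S, z ∈ LieTate ρ →
      LinearMap.trace ℚ_[ℓ] _ (Z * z) = 0) → Z = 0 :=
    fun Z hZ hZ' h => hN2 Z hZ ((hc Z hZ).1 hZ') fun z hz hz' => h z hz ((hc z hz).2 hz')
  have hsub : ∀ z ∈ S, ∀ z' ∈ S, z - z' ∈ S := fun z hz z' hz' => skewCentre_sub hz hz'
  refine le_antisymm (fun X hX => ?_) (fun X hX => ?_)
  · exact two_algebras hnd2 hnd hsub hp2 hp1 hN hN2 (fun z hz => (hc z hz).symm) hX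
      (part_hodge hP hq (fun φ => (h2 φ).2) hcH ((mem_lieTate_iff hP hq).1 hX))
  · refine two_algebras hnd hnd2 hsub hp1 hp2 hN hN1 hc hX ?_
    have h5 := part_tate hP hq (fun φ => (h2 φ).1) hnd hLie hsp hcen hcT hX
    rw [hE] at h5
    exact h5

end main

end Pool.Agent.W5h23.Wt
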