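import Mathlib
import Pool.Agent.W5h23.Wt.Main2

/-!
# The final form of the definitions
-/

set_option autoImplicit false

namespace Pool.Agent.W5h23.Wt

open Module TensorProduct Pool.Agent.H204R3.GP Pool.Agent.H204R3.SP Pool.Agent.TH118.MT
  Pool.Agent.Y114.RM Pool.Agent.H50.FT Pool.Agent.R913.Adj Pool.Agent Pool.Agent.W5h23.Four

section lie

variable {k V : Type} [Field k] [AddCommGroup V] [Module k V]

theorem killedBy_singleton {κ : Type} [Fintype κ] [DecidableEq κ] {X : End k V}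
    {φ : MultilinearMap k (fun _ : κ => V) k} : KilledBy {X} φ ↔ der X φ = 0 := by
  rw [killedBy_iff]
  exact ⟨fun h => h X rfl, fun h Z hZ => by
    rw [Set.mem_singleton_iff] at hZ
    rw [hZ, h]⟩

theorem lieOf_eq {F : FormSets k V} {L : Submodule k (End k V)}
    (h : ∀ X, X ∈ L ↔ ∀ (κ : Type) [Fintype κ] [DecidableEq κ], ∀ φ ∈ F κ, der X φ = 0) :
    LieOf F = L := by
  have h1 : {X : End k V | ∀ (κ : Type) [Fintype κ] [DecidableEq κ], ∀ φ ∈ F κ, KilledBy {X} φ} =
      (L : Set (End k V)) := by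
    ext X
    rw [SetLike.mem_coe, h]
    exact ⟨fun h2 κ _ _ φ hφ => killedBy_singleton.1 (h2 κ φ hφ),
      fun h2 κ _ _ φ hφ => killedBy_singleton.2 (h2 κ φ hφ)⟩
  unfold LieOf
  rw [h1, Submodule.span_eq]

theorem lieOf_tate {Γ : Type} [Group Γ] (ρ : Representation k Γ V) :
    LieOf (TateSets ρ) = LieTate ρ := lieOf_eq fun _ => Iff.rfl

theorem lieOf_hodge (k : Type) [Field k] [CharZero k] {W : Type} [AddCommGroup W] [Module ℚ W]
    (H : ℤ → Submodule ℂ (ℂ ⊗[ℚ] W)) : LieOf (HodgeSets k H) = LieHodge H k :=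
  lieOf_eq fun _ => Iff.rfl

variable [FiniteDimensional k V] {q : V →ₗ[k] V →ₗ[k] k} {L : Submodule k (End k V)}

theorem isLieClass_iff (hnd : NonDeg L) (φ : MultilinearMap k (fun _ : Fin 2 × Fin 2 => V) k) :
    IsLieClass q L φ ↔ φ = pf q (oproj L hnd) := by
  have hf : ∀ a b c d : V, four a b c d = quad a b c d := fun _ _ _ _ => rfl
  have h1 : ∀ a b : V, ∀ Y' ∈ L, LinearMap.trace k V (Y' * oproj L hnd (rk a (q b))) =
      q b (Y' a) := by
    intro a b Y' hY'
    rw [trace_oproj hnd _ hY', mul_rk, Four.trace_rk]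
  constructor
  · intro h
    refine MultilinearMap.ext fun v => ?_
    obtain ⟨Y, hY, h2, h3⟩ := h (v (0, 0)) (v (0, 1)) (v (1, 0)) (v (1, 1))
    have h4 : four (v (0, 0)) (v (0, 1)) (v (1, 0)) (v (1, 1)) = v := by
      funext p
      obtain ⟨i, j⟩ := p
      fin_cases i <;> fin_cases j <;> rfl
    have h5 : Y - oproj L hnd (rk (v (0, 0)) (q (v (0, 1)))) = 0 := by
      refine hnd _ (L.sub_mem hY (oproj_mem hnd _)) fun Y' hY' => ?_
      rw [LinearMap.trace_mul_comm, mul_sub, map_sub, h2 Y' hY', h1 _ _ Y' hY', sub_self]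
    rw [h4] at h3
    rw [h3, pf_apply, sub_eq_zero.1 h5]
  · rintro rfl a b c d
    exact ⟨oproj L hnd (rk a (q b)), oproj_mem hnd _, h1 a b, by rw [hf, pf_quad]⟩

end lie

end Pool.Agent.W5h23.Wt
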